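import Mathlib

/-!
# Project WS, module Bal: the balanced choice of the leaves

`bot`: the `b` smallest elements (induction on `b`, see `wd_inner_top` in Helper72/WD/Inner.lean).
`bal_step`: `w` not in `B`: `ls w ≤ ls u + ex u + 1` old. `w ∈ B`: want `ls w ≤ ls u + [u ∈ B] + ex u + [u ∈ E]`:
if `u ∈ B` or `u ∈ E` from the hypothesis; otherwise `ls w ≤ ls u` by `hmin`.
`sum_step`: `m` is the loss of the vertex `v` which leaves, `z` the picked leaf; by balance
`N * m ≥ S - N (r0 + 1)`.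
-/

set_option autoImplicit false

namespace Pool.Agent.Helper40.WS

open Finset

theorem bot {V : Type*} [DecidableEq V] (ls : V → ℕ) (S : Finset V) (b : ℕ) (hb : b ≤ S.card) :
    ∃ B ⊆ S, B.card = b ∧ ∀ y ∈ S \ B, ∀ z ∈ B, ls z ≤ ls y := by
  induction b with
  | zero =>
    exact ⟨∅, Finset.empty_subset S, Finset.card_empty, fun y _ z hz =>
      absurd hz (Finset.notMem_empty z)⟩
  | succ b ih =>
    obtain ⟨B, hBS, hBb, hB⟩ := ih (by omega)
    have hne : (S \ B).Nonempty := by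
      rw [← Finset.card_pos, Finset.card_sdiff_of_subset hBS]
      omega
    obtain ⟨z0, hz0, hmin⟩ := Finset.exists_min_image (S \ B) ls hne
    have hz0' := Finset.mem_sdiff.1 hz0
    refine ⟨insert z0 B, ?_, ?_, ?_⟩
    · intro x hx
      rcases Finset.mem_insert.1 hx with rfl | hx
      · exact hz0'.1
      · exact hBS hx
    · rw [Finset.card_insert_of_notMem hz0'.2, hBb]
    · intro y hy z hz
      have hy' := Finset.mem_sdiff.1 hy
      have hyB : y ∈ S \ B := Finset.mem_sdiff.2 ⟨hy'.1, fun h =>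
        hy'.2 (Finset.mem_insert_of_mem h)⟩
      rcases Finset.mem_insert.1 hz with rfl | hz
      · exact hmin y hyB
      · exact hB y hyB z hz

theorem bal_step {V : Type*} [DecidableEq V] {V0 B E : Finset V} {ls ex : V → ℕ}
    (h : ∀ w ∈ V0, ∀ u ∈ V0, ls w ≤ ls u + ex u + 1)
    (hmin : ∀ y ∈ V0, y ∉ B → y ∉ E → ∀ z ∈ B, ls z ≤ ls y) :
    ∀ w ∈ V0, ∀ u ∈ V0, ls w + (if w ∈ B then 1 else 0) ≤
      ls u + (if u ∈ B then 1 else 0) + (ex u + if u ∈ E then 1 else 0) + 1 := by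
  intro w hw u hu
  have h1 := h w hw u hu
  by_cases hwB : w ∈ B
  · by_cases huB : u ∈ B
    · simp only [hwB, huB, if_true]
      split_ifs <;> omega
    · by_cases huE : u ∈ E
      · simp only [hwB, huB, huE, if_true, if_false]
        omega
      · have h2 := hmin u hu huB huE w hwB
        simp only [hwB, huB, huE, if_true, if_false]
        omega
  · simp only [hwB, if_false]
    split_ifs <;> omega

/-- The sum over the remaining vertices of degree 0 after one round. -/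
theorem sum_step {V : Type*} [DecidableEq V] {V0 B : Finset V} {ls : V → ℕ} {v z : V} {r0 b : ℕ}
    {A : ℝ} (hv : v ∈ V0) (hz : z ∈ B) (hB : B ⊆ V0.erase v) (hBb : B.card = b)
    (hbal : ∀ w ∈ V0, ∀ u ∈ V0, ls w ≤ ls u + r0 + 1)
    (hsum : (∑ x ∈ V0, (ls x : ℝ)) ≤ V0.card * A) (h2 : 3 ≤ V0.card) :
    (∑ x ∈ (V0.erase v).erase z, ((ls x + if x ∈ B then 1 else 0 : ℕ) : ℝ)) ≤
      ((V0.card : ℝ) - 2) * A + b + 2 * r0 + 1 := by
  have hzV : z ∈ V0.erase v := hB hz
  have hzV0 : z ∈ V0 := Finset.mem_of_mem_erase hzV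
  have hvB : v ∉ B := fun h => Finset.notMem_erase v V0 (hB h)
  have hBV : B ⊆ V0 := hB.trans (Finset.erase_subset v V0)
  have hlow : ∀ u ∈ V0, (∑ x ∈ V0, (ls x : ℝ)) ≤ V0.card * ((ls u : ℝ) + r0 + 1) := by
    intro u hu
    calc (∑ x ∈ V0, (ls x : ℝ)) ≤ ∑ x ∈ V0, ((ls u : ℝ) + r0 + 1) :=
          Finset.sum_le_sum fun x hx => by exact_mod_cast hbal x hx u hu
      _ = V0.card * ((ls u : ℝ) + r0 + 1) := by rw [Finset.sum_const, nsmul_eq_mul]
  have h3 := hlow v hv
  have h4 := hlow z hzV0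
  have hind : (∑ x ∈ V0, (if x ∈ B then (1 : ℝ) else 0)) = b := by
    rw [Finset.sum_boole, Finset.filter_mem_eq_inter, Finset.inter_eq_right.2 hBV, hBb]
  have htot : (∑ x ∈ (V0.erase v).erase z, ((ls x + if x ∈ B then 1 else 0 : ℕ) : ℝ)) =
      (∑ x ∈ V0, (ls x : ℝ)) + b - ls v - (ls z + 1) := by
    rw [Finset.sum_erase_eq_sub hzV, Finset.sum_erase_eq_sub hv, if_neg hvB, if_pos hz]
    push_cast
    rw [Finset.sum_add_distrib, hind]
    ring
  rw [htot]
  have hN : (3 : ℝ) ≤ V0.card := by exact_mod_cast h2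
  generalize (∑ x ∈ V0, (ls x : ℝ)) = S at *
  generalize (V0.card : ℝ) = N at *
  generalize (ls v : ℝ) = p at *
  generalize (ls z : ℝ) = q at *
  -- `N (p + q) ≥ 2 S - 2 N (r0 + 1)`
  have h5 : 2 * S ≤ N * (p + q + 2 * r0 + 2) := by linarith
  have h6 : N * (S - p - q) ≤ N * ((N - 2) * A + 2 * r0 + 2) := by
    have h7 : (N - 2) * S ≤ (N - 2) * (N * A) := mul_le_mul_of_nonneg_left hsum (by linarith)
    nlinarith
  have h8 : S - p - q ≤ (N - 2) * A + 2 * r0 + 2 := le_of_mul_le_mul_left h6 (by linarith)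
  linarith

end Pool.Agent.Helper40.WS
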