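import Pool.Agent.Helper40.WS.Defs
import Pool.Agent.Helper46.WC.Graph1

/-!
# Project WS, module Split: splitting a connected set of bounded degree

A connected `X` with more than `(Δ + 1) M` vertices splits into two connected sets of at
least `M` vertices. Proof: among the `S ⊆ X` with `S` connected, `M ≤ |S|`, `X \ S` connected or
empty (`X` itself is one) take the smallest. If `|X \ S| < M` then `|S| > Δ M + 1`; take `x ∈ S` adjacent
to `X \ S` (any `x ∈ S` if `X = S`); `S \ {x}` is covered by its maximal connected subsets, each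
adjacent to `x` and pairwise disjoint, so at most `Δ` of them, one has at least `M` vertices,
and its complement in `X` is connected: contradiction to the choice of `S`. (`Conn.union` in
Helper46/WC/Graph1.lean.)
-/

set_option autoImplicit false

namespace Pool.Agent.Helper40.WS

open Finset Pool.Agent.Helper72.WC

variable {n : ℕ}

private theorem split_single (C : Finset (Sym2 (Fin n))) (y : Fin n) : Conn C {y} := by
  refine ⟨singleton_nonempty y, fun S hS h1 h2 => ?_⟩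
  exfalso
  obtain ⟨a, ha⟩ := h1
  obtain ⟨b, hb⟩ := h2
  have h3 := mem_singleton.1 (hS ha)
  have h4 := mem_sdiff.1 hb
  have h5 := mem_singleton.1 h4.1
  rw [h3] at ha
  rw [h5] at h4
  exact h4.2 ha

open Classical in
/-- the component of `y` in `V` -/
private noncomputable def split_cmp (C : Finset (Sym2 (Fin n))) (V : Finset (Fin n)) (y : Fin n) :
    Finset (Fin n) :=
  V.filter fun z => ∃ Z ⊆ V, Conn C Z ∧ y ∈ Z ∧ z ∈ Z

private theorem mem_split_cmp {C : Finset (Sym2 (Fin n))} {V : Finset (Fin n)} {y z : Fin n} :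
    z ∈ split_cmp C V y ↔ ∃ Z ⊆ V, Conn C Z ∧ y ∈ Z ∧ z ∈ Z := by
  classical
  unfold split_cmp
  rw [mem_filter]
  constructor
  · exact fun h => h.2
  · rintro ⟨Z, hZ, h1, h2, h3⟩
    exact ⟨hZ h3, Z, hZ, h1, h2, h3⟩

private theorem split_cmp_sub {C : Finset (Sym2 (Fin n))} {V : Finset (Fin n)} {y : Fin n} :
    split_cmp C V y ⊆ V := by
  intro z hz
  obtain ⟨Z, hZ, -, -, h⟩ := mem_split_cmp.1 hz
  exact hZ h

private theorem split_cmp_self {C : Finset (Sym2 (Fin n))} {V : Finset (Fin n)} {y : Fin n}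
    (hy : y ∈ V) : y ∈ split_cmp C V y :=
  mem_split_cmp.2 ⟨{y}, singleton_subset_iff.2 hy, split_single C y, mem_singleton_self y,
    mem_singleton_self y⟩

private theorem split_cmp_conn {C : Finset (Sym2 (Fin n))} {V : Finset (Fin n)} {y : Fin n}
    (hy : y ∈ V) : Conn C (split_cmp C V y) := by
  refine ⟨⟨y, split_cmp_self hy⟩, fun A hA h1 h2 => ?_⟩
  have key : ∃ Z ⊆ V, Conn C Z ∧ y ∈ Z ∧ (A ∩ Z).Nonempty ∧ (Z \ A).Nonempty := by
    by_cases hyA : y ∈ A
    · obtain ⟨z, hz⟩ := h2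
      obtain ⟨hz1, hz2⟩ := mem_sdiff.1 hz
      obtain ⟨Z, hZ, hZc, hyZ, hzZ⟩ := mem_split_cmp.1 hz1
      exact ⟨Z, hZ, hZc, hyZ, ⟨y, mem_inter.2 ⟨hyA, hyZ⟩⟩, ⟨z, mem_sdiff.2 ⟨hzZ, hz2⟩⟩⟩
    · obtain ⟨z, hz⟩ := h1
      obtain ⟨Z, hZ, hZc, hyZ, hzZ⟩ := mem_split_cmp.1 (hA hz)
      exact ⟨Z, hZ, hZc, hyZ, ⟨z, mem_inter.2 ⟨hz, hzZ⟩⟩, ⟨y, mem_sdiff.2 ⟨hyZ, hyA⟩⟩⟩
  obtain ⟨Z, hZ, hZc, hyZ, h3, h4⟩ := key
  have h5 : Z \ (A ∩ Z) = Z \ A := by
    ext w
    simp only [mem_sdiff, mem_inter]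
    tauto
  obtain ⟨a, ha, c, hc, hac⟩ := hZc.2 (A ∩ Z) inter_subset_right h3 (by rw [h5]; exact h4)
  rw [h5] at hc
  obtain ⟨hc1, hc2⟩ := mem_sdiff.1 hc
  exact ⟨a, (mem_inter.1 ha).1, c,
    mem_sdiff.2 ⟨mem_split_cmp.2 ⟨Z, hZ, hZc, hyZ, hc1⟩, hc2⟩, hac⟩

theorem conn_split {C : Finset (Sym2 (Fin n))} {Δ M : ℕ} (hup : ∀ x, dg C x ≤ Δ) (hM : 0 < M)
    {X : Finset (Fin n)} (hX : Conn C X) (hcard : (Δ + 1) * M < X.card) :
    ∃ S ⊆ X, Conn C S ∧ Conn C (X \ S) ∧ M ≤ S.card ∧ M ≤ (X \ S).card := by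
  classical
  have hMX : M ≤ X.card := by
    have : M ≤ (Δ + 1) * M := Nat.le_mul_of_pos_left M (Nat.succ_pos Δ)
    omega
  -- the smallest admissible set
  obtain ⟨S, hS, hmin⟩ := Finset.exists_min_image
    (X.powerset.filter fun S => Conn C S ∧ M ≤ S.card ∧ (X \ S = ∅ ∨ Conn C (X \ S)))
    Finset.card ⟨X, by
      rw [mem_filter, mem_powerset]
      exact ⟨Subset.refl X, hX, hMX, Or.inl (by simp)⟩⟩
  rw [mem_filter, mem_powerset] at hS
  obtain ⟨hSX, hSc, hMS, hcomp⟩ := hS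
  by_cases hbig : M ≤ (X \ S).card
  · refine ⟨S, hSX, hSc, ?_, hMS, hbig⟩
    rcases hcomp with h | h
    · rw [h, card_empty] at hbig
      omega
    · exact h
  exfalso
  push Not at hbig
  have hScard : Δ * M + 1 < S.card := by
    have h1 := card_sdiff_add_card_eq_card hSX
    have h2 : (Δ + 1) * M = Δ * M + M := by ring
    omega
  -- the point x
  obtain ⟨x, hxS, hx⟩ : ∃ x ∈ S, (X \ S).Nonempty → ∃ y ∈ X \ S, s(x, y) ∈ C := by
    by_cases h : (X \ S).Nonempty
    · obtain ⟨x, hx, y, hy, hxy⟩ := hX.2 S hSX hSc.1 h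
      exact ⟨x, hx, fun _ => ⟨y, hy, hxy⟩⟩
    · obtain ⟨x, hx⟩ := hSc.1
      exact ⟨x, hx, fun h' => absurd h' h⟩
  obtain ⟨V, hV⟩ : ∃ V, V = S.erase x := ⟨_, rfl⟩
  have hVcard : V.card + 1 = S.card := by rw [hV]; exact card_erase_add_one hxS
  have hVS : V ⊆ S := by rw [hV]; exact erase_subset x S
  have hxV : x ∉ V := by rw [hV]; exact notMem_erase x S
  have hmemV : ∀ z, z ∈ S → z ≠ x → z ∈ V := by
    intro z hz hzx
    rw [hV]
    exact mem_erase.2 ⟨hzx, hz⟩
  have hVne : V.Nonempty := by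
    rw [← card_pos]
    omega
  obtain ⟨z0, hz0⟩ := hVne
  -- the largest connected subset of V
  obtain ⟨T, hT, hmax⟩ := Finset.exists_max_image (V.powerset.filter fun T => Conn C T)
    Finset.card ⟨{z0}, by
      rw [mem_filter, mem_powerset]
      exact ⟨singleton_subset_iff.2 hz0, split_single C z0⟩⟩
  rw [mem_filter, mem_powerset] at hT
  obtain ⟨hTV, hTc⟩ := hT
  have hmax' : ∀ Z ⊆ V, Conn C Z → Z.card ≤ T.card := by
    intro Z hZ hZc
    exact hmax Z (by rw [mem_filter, mem_powerset]; exact ⟨hZ, hZc⟩)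
  have hcover : V ⊆ (nb C x).biUnion (split_cmp C V) := by
    intro z hz
    have hc := split_cmp_conn (C := C) hz
    have hxn : x ∉ split_cmp C V z := fun h => hxV (split_cmp_sub h)
    obtain ⟨a, ha, b, hb, hab⟩ := hSc.2 (split_cmp C V z) (split_cmp_sub.trans hVS) hc.1
      ⟨x, mem_sdiff.2 ⟨hxS, hxn⟩⟩
    obtain ⟨hb1, hb2⟩ := mem_sdiff.1 hb
    have hbx : b = x := by
      by_contra hbx
      apply hb2
      have h1 := Conn.union hc (split_single C b) ha (mem_singleton_self b) hab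
      refine mem_split_cmp.2 ⟨_, union_subset split_cmp_sub
        (singleton_subset_iff.2 (hmemV b hb1 hbx)), h1, mem_union_left _ (split_cmp_self hz),
        mem_union_right _ (mem_singleton_self b)⟩
    rw [hbx] at hab
    refine mem_biUnion.2 ⟨a, ?_, ?_⟩
    · unfold nb
      rw [mem_filter]
      refine ⟨mem_univ _, ?_⟩
      rw [Sym2.eq_swap]
      exact hab
    · exact mem_split_cmp.2 ⟨_, split_cmp_sub, hc, ha, split_cmp_self hz⟩
  have hTM : M ≤ T.card := by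
    have h1 : V.card ≤ (nb C x).card * T.card := by
      refine le_trans (card_le_card hcover) (card_biUnion_le_card_mul _ _ _ fun y _ => ?_)
      by_cases hy : y ∈ V
      · exact hmax' _ split_cmp_sub (split_cmp_conn hy)
      · have h2 : split_cmp C V y = ∅ := by
          rw [eq_empty_iff_forall_notMem]
          intro z hz
          obtain ⟨Z, hZ, -, hyZ, -⟩ := mem_split_cmp.1 hz
          exact hy (hZ hyZ)
        rw [h2, card_empty]
        exact Nat.zero_le _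
    have h2 : V.card ≤ Δ * T.card := le_trans h1 (Nat.mul_le_mul_right _ (hup x))
    by_contra hlt
    push Not at hlt
    have h3 : Δ * T.card ≤ Δ * M := Nat.mul_le_mul_left _ hlt.le
    omega
  have hTS : T ⊆ S := hTV.trans hVS
  have hxT : x ∉ T := fun h => hxV (hTV h)
  -- the complement of T is connected
  have hmaxT : ∀ b ∈ V, b ∉ T → ∀ a ∈ T, s(a, b) ∉ C := by
    intro b hb hbT a ha hab
    have h1 := Conn.union hTc (split_single C b) ha (mem_singleton_self b) hab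
    have h2 := hmax' _ (union_subset hTV (singleton_subset_iff.2 hb)) h1
    have h3 : T.card < (T ∪ {b}).card := by
      apply card_lt_card
      rw [Finset.ssubset_iff_subset_ne]
      refine ⟨subset_union_left, fun h => hbT ?_⟩
      rw [h]
      exact mem_union_right _ (mem_singleton_self b)
    omega
  have half : ∀ B ⊆ X \ T, B.Nonempty → x ∉ B →
      ∃ b ∈ B, ∃ c ∈ (X \ T) \ B, s(b, c) ∈ C := by
    intro B hB hBne hxB
    have hxc : x ∈ (X \ T) \ B := mem_sdiff.2 ⟨mem_sdiff.2 ⟨hSX hxS, hxT⟩, hxB⟩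
    by_cases h1 : (B ∩ (X \ S)).Nonempty
    · have hne : (X \ S).Nonempty := by
        obtain ⟨w, hw⟩ := h1
        exact ⟨w, (mem_inter.1 hw).2⟩
      have hc : Conn C (X \ S) := by
        rcases hcomp with h | h
        · rw [h] at hne
          exact absurd hne not_nonempty_empty
        · exact h
      by_cases h2 : ((X \ S) \ B).Nonempty
      · have h5 : (X \ S) \ (B ∩ (X \ S)) = (X \ S) \ B := by
          ext w
          simp only [mem_sdiff, mem_inter]
          tauto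
        obtain ⟨a, ha, c, hc', hac⟩ := hc.2 (B ∩ (X \ S)) inter_subset_right h1
          (by rw [h5]; exact h2)
        rw [h5] at hc'
        obtain ⟨hc1, hc2⟩ := mem_sdiff.1 hc'
        obtain ⟨hc3, hc4⟩ := mem_sdiff.1 hc1
        exact ⟨a, (mem_inter.1 ha).1, c,
          mem_sdiff.2 ⟨mem_sdiff.2 ⟨hc3, fun h => hc4 (hTS h)⟩, hc2⟩, hac⟩
      · obtain ⟨y, hy, hxy⟩ := hx hne
        have hyB : y ∈ B := by
          by_contra hyB
          exact h2 ⟨y, mem_sdiff.2 ⟨hy, hyB⟩⟩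
        refine ⟨y, hyB, x, hxc, ?_⟩
        rw [Sym2.eq_swap]
        exact hxy
    · have hBS : B ⊆ S := by
        intro w hw
        by_contra hwS
        exact h1 ⟨w, mem_inter.2 ⟨hw, mem_sdiff.2 ⟨(mem_sdiff.1 (hB hw)).1, hwS⟩⟩⟩
      obtain ⟨b, hb, c, hc, hbc⟩ := hSc.2 B hBS hBne ⟨x, mem_sdiff.2 ⟨hxS, hxB⟩⟩
      obtain ⟨hc1, hc2⟩ := mem_sdiff.1 hc
      have hbT : b ∉ T := (mem_sdiff.1 (hB hb)).2
      have hbx : b ≠ x := fun h => hxB (h ▸ hb)
      refine ⟨b, hb, c, mem_sdiff.2 ⟨mem_sdiff.2 ⟨hSX hc1, fun hcT => ?_⟩, hc2⟩, hbc⟩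
      refine hmaxT b (hmemV b (hBS hb) hbx) hbT c hcT ?_
      rw [Sym2.eq_swap]
      exact hbc
  have hconn : Conn C (X \ T) := by
    refine ⟨⟨x, mem_sdiff.2 ⟨hSX hxS, hxT⟩⟩, fun A hA h1 h2 => ?_⟩
    by_cases hxA : x ∈ A
    · obtain ⟨b, hb, c, hc, hbc⟩ := half ((X \ T) \ A) sdiff_subset h2
        (fun h => (mem_sdiff.1 h).2 hxA)
      obtain ⟨hc1, hc2⟩ := mem_sdiff.1 hc
      have hcA : c ∈ A := by
        by_contra hcA
        exact hc2 (mem_sdiff.2 ⟨hc1, hcA⟩)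
      refine ⟨c, hcA, b, hb, ?_⟩
      rw [Sym2.eq_swap]
      exact hbc
    · exact half A hA h1 hxA
  have h9 := hmin T (by
    rw [mem_filter, mem_powerset]
    exact ⟨hTS.trans hSX, hTc, hTM, Or.inr hconn⟩)
  have h10 : T.card ≤ V.card := card_le_card hTV
  omega

end Pool.Agent.Helper40.WS
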