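import Pool.Agent.Helper40.WS.CompBig
import Pool.Agent.Helper40.WS.Split

/-!
# Project WS, module Clu: large clusters

Among the partitions of the vertices into connected sets with at least `M` vertices
(the components are one: `comp_big`) take one with the most members; by `conn_split` all members
have at most `(Δ + 1) M` vertices. `f v` = a chosen element of the member of `v`. (Model the
partition as `f : Fin n → Fin n` with `f (f v) = f v`, maximise the number of fixed points; or: take a
family of disjoint sets, `Finset` of `Finset`s.)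
-/

set_option autoImplicit false

namespace Pool.Agent.Helper40.WS

open Finset Pool.Agent.Helper72.WC

variable {n : ℕ}

/-- a partition into connected sets with at least `M` vertices -/
private def CluP (C : Finset (Sym2 (Fin n))) (M : ℕ) (f : Fin n → Fin n) : Prop :=
  (∀ v, f (f v) = f v) ∧ (∀ v, Conn C (cl f (f v))) ∧ ∀ v, M ≤ (cl f (f v)).card

private theorem mem_cl {f : Fin n → Fin n} {z u : Fin n} : u ∈ cl f z ↔ f u = z := by
  unfold cl
  simp

/-- the components -/
private theorem clu_start {C : Finset (Sym2 (Fin n))} {M l : ℕ} (hC : C ⊆ board n) (hs : Sp l C)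
    (hlo : ∀ x, 2 ≤ dg C x) (hMl : M ≤ l) : ∃ f : Fin n → Fin n, CluP C M f := by
  classical
  let R : Fin n → Fin n → Prop := fun x y => s(x, y) ∈ C
  have hsymm : ∀ x y, R x y → R y x := fun x y h => by
    change s(y, x) ∈ C
    rw [Sym2.eq_swap]
    exact h
  have hsym : ∀ x y, Relation.ReflTransGen R x y → Relation.ReflTransGen R y x := by
    intro x y h
    induction h with
    | refl => exact Relation.ReflTransGen.refl
    | tail _ hbc ih => exact Relation.ReflTransGen.head (hsymm _ _ hbc) ih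
  let st : Setoid (Fin n) := ⟨Relation.ReflTransGen R,
    ⟨fun _ => Relation.ReflTransGen.refl, fun h => hsym _ _ h, fun h h' => h.trans h'⟩⟩
  let f : Fin n → Fin n := fun v => (Quotient.mk st v).out
  have hf1 : ∀ v, Relation.ReflTransGen R (f v) v := fun v =>
    Quotient.exact (s := st) (Quotient.out_eq (s := st) (Quotient.mk st v))
  have hf2 : ∀ u v, Relation.ReflTransGen R u v → f u = f v := fun u v h => by
    change (Quotient.mk st u).out = (Quotient.mk st v).out
    rw [Quotient.sound (s := st) h]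
  have hff : ∀ v, f (f v) = f v := fun v => hf2 _ _ (hf1 v)
  have hcl : ∀ v u, u ∈ cl f (f v) ↔ Relation.ReflTransGen R v u := by
    intro v u
    rw [mem_cl]
    constructor
    · intro h
      refine (hsym _ _ (hf1 v)).trans ?_
      rw [← h]
      exact hf1 u
    · intro h
      exact (hf2 _ _ h).symm
  refine ⟨f, hff, fun v => ⟨⟨v, (hcl v v).2 Relation.ReflTransGen.refl⟩, ?_⟩, fun v => ?_⟩
  · intro S hSX ⟨x0, hx0⟩ ⟨y0, hy0⟩
    rw [Finset.mem_sdiff] at hy0
    have hpath : Relation.ReflTransGen R x0 y0 :=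
      (hsym _ _ ((hcl v x0).1 (hSX hx0))).trans ((hcl v y0).1 hy0.1)
    by_contra hcon
    push Not at hcon
    have key : ∀ y, Relation.ReflTransGen R x0 y → y ∈ S := by
      intro y h
      induction h with
      | refl => exact hx0
      | @tail b c hab hbc ih =>
        by_contra hc
        refine hcon b ih c ?_ hbc
        rw [Finset.mem_sdiff]
        refine ⟨(hcl v c).2 ?_, hc⟩
        exact ((hcl v b).1 (hSX ih)).tail hbc
    exact hy0.2 (key y0 hpath)
  · refine hMl.trans (le_of_lt (comp_big hC hs hlo ⟨v, (hcl v v).2 Relation.ReflTransGen.refl⟩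
      fun x hx y hy => ?_))
    rw [hcl] at hx ⊢
    refine hx.tail ?_
    simpa [nb] using hy

/-- a member which is too large can be split -/
private theorem clu_step {C : Finset (Sym2 (Fin n))} {Δ M : ℕ} (hup : ∀ x, dg C x ≤ Δ) (hM : 0 < M)
    {f : Fin n → Fin n} (hf : CluP C M f) {v : Fin n} (hv : (Δ + 1) * M < (cl f (f v)).card) :
    ∃ f' : Fin n → Fin n, CluP C M f' ∧
      (univ.filter fun u => f u = u).card < (univ.filter fun u => f' u = u).card := by
  classical
  obtain ⟨hff, hconn, hcard⟩ := hf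
  obtain ⟨S, hSX, hS, hS', hSM, hSM'⟩ := conn_split hup hM (hconn v) hv
  set z := f v with hz
  have hzz : f z = z := hff v
  have hzX : z ∈ cl f z := mem_cl.2 hzz
  obtain ⟨T, hTX, hzT, hT, hT', hTM, hTM'⟩ : ∃ T ⊆ cl f z, z ∉ T ∧ Conn C T ∧
      Conn C (cl f z \ T) ∧ M ≤ T.card ∧ M ≤ (cl f z \ T).card := by
    by_cases h : z ∈ S
    · refine ⟨cl f z \ S, Finset.sdiff_subset, fun h' => (Finset.mem_sdiff.1 h').2 h, hS', ?_,
        hSM', ?_⟩
      · rwa [Finset.sdiff_sdiff_eq_self hSX]
      · rwa [Finset.sdiff_sdiff_eq_self hSX]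
    · exact ⟨S, hSX, h, hS, hS', hSM, hSM'⟩
  obtain ⟨t, ht⟩ := hT.1
  have htz : f t = z := mem_cl.1 (hTX ht)
  have hfix : ∀ u, f u ∉ T := by
    intro u hu
    have h1 : f (f u) = z := mem_cl.1 (hTX hu)
    rw [hff] at h1
    exact hzT (h1 ▸ hu)
  let f' : Fin n → Fin n := fun u => if u ∈ T then t else f u
  have hin : ∀ u, u ∈ T → f' u = t := fun u hu => if_pos hu
  have hout : ∀ u, u ∉ T → f' u = f u := fun u hu => if_neg hu
  have hclT : cl f' t = T := by
    ext w
    rw [mem_cl]
    constructor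
    · intro h
      by_contra hw
      rw [hout w hw] at h
      exact hfix w (h ▸ ht)
    · exact hin w
  have hclo : ∀ u, u ∉ T → cl f' (f u) = cl f (f u) \ T := by
    intro u _
    ext w
    rw [mem_cl, Finset.mem_sdiff, mem_cl]
    constructor
    · intro h
      by_cases hw : w ∈ T
      · rw [hin w hw] at h
        exact absurd (h ▸ ht) (hfix u)
      · rw [hout w hw] at h
        exact ⟨h, hw⟩
    · rintro ⟨h, hw⟩
      rw [hout w hw]
      exact h
  have hclo' : ∀ u, u ∉ T → (Conn C (cl f' (f u)) ∧ M ≤ (cl f' (f u)).card) := by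
    intro u hu
    rw [hclo u hu]
    by_cases h : f u = z
    · rw [h]
      exact ⟨hT', hTM'⟩
    · have h1 : cl f (f u) \ T = cl f (f u) := by
        rw [Finset.sdiff_eq_self_iff_disjoint, Finset.disjoint_left]
        intro w hw hwT
        exact h ((mem_cl.1 hw).symm.trans (mem_cl.1 (hTX hwT)))
      rw [h1]
      exact ⟨hconn u, hcard u⟩
  refine ⟨f', ⟨fun u => ?_, fun u => ?_, fun u => ?_⟩, ?_⟩
  · by_cases hu : u ∈ T
    · rw [hin u hu, hin t ht]
    · rw [hout u hu, hout (f u) (hfix u), hff]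
  · by_cases hu : u ∈ T
    · rw [hin u hu, hclT]
      exact hT
    · rw [hout u hu]
      exact (hclo' u hu).1
  · by_cases hu : u ∈ T
    · rw [hin u hu, hclT]
      exact hTM
    · rw [hout u hu]
      exact (hclo' u hu).2
  · apply Finset.card_lt_card
    rw [Finset.ssubset_iff_of_subset]
    · refine ⟨t, ?_, ?_⟩
      · rw [Finset.mem_filter]
        exact ⟨Finset.mem_univ _, hin t ht⟩
      · rw [Finset.mem_filter]
        rintro ⟨-, h⟩
        exact hfix t (h.symm ▸ ht)
    · intro u hu
      rw [Finset.mem_filter] at hu ⊢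
      refine ⟨Finset.mem_univ _, ?_⟩
      rw [hout u fun h => hfix u (hu.2.symm ▸ h)]
      exact hu.2

theorem clustersM {C : Finset (Sym2 (Fin n))} {Δ M l : ℕ} (hC : C ⊆ board n) (hs : Sp l C)
    (hlo : ∀ x, 2 ≤ dg C x) (hup : ∀ x, dg C x ≤ Δ) (hM : 0 < M) (hMl : M ≤ l) :
    ∃ f : Fin n → Fin n, (∀ v, f (f v) = f v) ∧ (∀ v, Conn C (cl f (f v))) ∧
      (∀ v, M ≤ (cl f (f v)).card) ∧ ∀ v, (cl f (f v)).card ≤ (Δ + 1) * M := by
  classical
  obtain ⟨f0, hf0⟩ := clu_start hC hs hlo hMl
  obtain ⟨f, hf, hmax⟩ := Set.exists_max_image {f | CluP C M f}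
    (fun f => (univ.filter fun u => f u = u).card) (Set.toFinite _) ⟨f0, hf0⟩
  refine ⟨f, hf.1, hf.2.1, hf.2.2, fun v => ?_⟩
  by_contra hv
  obtain ⟨f', hf', hlt⟩ := clu_step hup hM hf (not_le.1 hv)
  exact absurd (hmax f' hf') (not_le.2 hlt)

end Pool.Agent.Helper40.WS
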