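import Pool.Agent.Helper40.WS.Defs

/-!
# Project WS, module CompBig

A nonempty set `W` closed under `nb C` has more than `l` vertices: otherwise, as all degrees are at
least 2 and all neighbours are inside, `W` spans at least `|W|` pairs (double counting), against `Sp l C`.
-/

set_option autoImplicit false

namespace Pool.Agent.Helper40.WS

open Finset Pool.Agent.Helper72.WC

variable {n : ℕ}

theorem comp_big {C : Finset (Sym2 (Fin n))} {l : ℕ} (hC : C ⊆ board n) (hs : Sp l C)
    (hlo : ∀ x, 2 ≤ dg C x) {W : Finset (Fin n)} (hW : W.Nonempty)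
    (hcl : ∀ x ∈ W, nb C x ⊆ W) : l < W.card := by
  classical
  by_contra hcon
  have h1 := hs W hW (not_lt.1 hcon)
  have h2 : ∀ x ∈ W, 2 ≤ ((C.filter fun e => e ∈ W.sym2).filter fun e => x ∈ e).card := by
    intro x hx
    refine (hlo x).trans ?_
    unfold dg
    refine Finset.card_le_card_of_injOn (fun y => s(x, y)) ?_ ?_
    · intro y hy
      have hy' : y ∈ nb C x := hy
      have hyC : s(x, y) ∈ C := (Finset.mem_filter.1 hy').2
      have hyW : y ∈ W := hcl x hx hy'
      simp only [Finset.coe_filter, Set.mem_ofPred_eq, Finset.mem_filter]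
      exact ⟨⟨hyC, Finset.mk_mem_sym2_iff.2 ⟨hx, hyW⟩⟩, Sym2.mem_mk_left x y⟩
    · intro y _ z _ hyz
      exact Sym2.congr_right.1 hyz
  have h3 : ∀ e ∈ C.filter fun e => e ∈ W.sym2, (W.filter fun x => x ∈ e).card ≤ 2 := by
    intro e _
    induction e using Sym2.ind with
    | _ a b =>
      refine (Finset.card_le_card (t := {a, b}) ?_).trans Finset.card_le_two
      intro x hx
      have := (Finset.mem_filter.1 hx).2
      rw [Sym2.mem_iff] at this
      simpa using this
  have h4 := Finset.sum_card_bipartiteAbove_eq_sum_card_bipartiteBelow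
    (s := W) (t := C.filter fun e => e ∈ W.sym2) (fun (x : Fin n) (e : Sym2 (Fin n)) => x ∈ e)
  have h5 : 2 * W.card ≤ 2 * (C.filter fun e => e ∈ W.sym2).card := by
    calc 2 * W.card = ∑ x ∈ W, 2 := by rw [Finset.sum_const, smul_eq_mul, mul_comm]
      _ ≤ ∑ x ∈ W, (Finset.bipartiteAbove (fun (x : Fin n) (e : Sym2 (Fin n)) => x ∈ e)
          (C.filter fun e => e ∈ W.sym2) x).card := Finset.sum_le_sum h2
      _ = ∑ e ∈ C.filter (fun e => e ∈ W.sym2),
          (Finset.bipartiteBelow (fun (x : Fin n) (e : Sym2 (Fin n)) => x ∈ e) W e).card := h4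
      _ ≤ ∑ e ∈ C.filter (fun e => e ∈ W.sym2), 2 := Finset.sum_le_sum h3
      _ = 2 * (C.filter fun e => e ∈ W.sym2).card := by
        rw [Finset.sum_const, smul_eq_mul, mul_comm]
  omega

end Pool.Agent.Helper40.WS
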