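import Pool.Agent.Helper72.WC.Defs

/-!
# Project WS (MP_c8f8f3_co): small k, definitions

The lower bound `q_{C_k}(n) ≥ (1 - o(1)) n / x_k`, `x_k = (2k - 1 + √((2k-1)² + 4)) / 2`, `k ≥ 2`.

Phase 0: stars inside the set `iso C` of the vertices of Client degree 0, leaves with the smallest
losses. Phase 1: every vertex gets its own free pairs (Hall) and offers them.
-/

set_option autoImplicit false

namespace Pool.Agent.Helper40.WS

open Finset Pool.Agent.Helper72.WC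

variable {n : ℕ}

/-- The vertices of degree 0 in Client's graph. -/
def iso (C : Finset (Sym2 (Fin n))) : Finset (Fin n) := univ.filter fun x => dg C x = 0

/-- The number of the used pairs at `x` (`U`: the unselected pairs). -/
def loss (U : Finset (Sym2 (Fin n))) (x : Fin n) : ℕ := ((board n \ U).filter fun e => x ∈ e).card

/-- The slowly growing bound for the average loss of the vertices of degree 0 when there are `N` of
them. -/
noncomputable def avg (n b r0 : ℕ) (N : ℕ) : ℝ :=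
  ((b : ℝ) + 2 * r0 + 2) / 2 * Real.log (((n : ℝ) - 2) / ((N : ℝ) - 2))

/-- The bound for the losses as a leaf. -/
noncomputable def lam (n b r0 : ℕ) : ℝ :=
  ((b : ℝ) + 2 * r0 + 2) / 2 * Real.log ((n : ℝ) / b) + r0 + 1

/-- The invariant of phase 0 (`Z`: the centres up to now). -/
structure Inv0 (b r0 l : ℕ) (ρ : Fin n → Fin n → Prop) [DecidableRel ρ]
    (U C : Finset (Sym2 (Fin n))) : Prop where
  hC : C ⊆ board n
  hU : U ⊆ board n
  hd : Disjoint C U
  hres : ∀ x y, x ≠ y → ρ x y → s(x, y) ∈ U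
  hin : ∀ x ∈ iso C, ∀ y ∈ iso C, x ≠ y → s(x, y) ∈ U
  hsp : Sp l C
  hdg : ∀ x, dg C x ≤ 1
  hcard : 2 * C.card + (iso C).card = n
  hused : (board n \ U).card = b * C.card
  hN : b + r0 ≤ (iso C).card + 1
  hbal : ∃ Z : Finset (Fin n), (∀ z ∈ Z, z ∉ iso C) ∧ ∀ w ∈ iso C, ∀ u ∈ iso C,
    loss U w ≤ loss U u + (Z.filter fun z => ρ z u).card + 1
  hsum : (∑ x ∈ iso C, (loss U x : ℝ)) ≤ (iso C).card * avg n b r0 (iso C).card
  hloss : ∀ x, x ∉ iso C → (loss U x : ℝ) ≤ b + lam n b r0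

/-- The position after phase 0. -/
structure Ph0 (b r0 l : ℕ) (ρ : Fin n → Fin n → Prop) [DecidableRel ρ]
    (U C : Finset (Sym2 (Fin n))) : Prop where
  hC : C ⊆ board n
  hU : U ⊆ board n
  hd : Disjoint C U
  hres : ∀ x y, x ≠ y → ρ x y → s(x, y) ∈ U
  hsp : Sp l C
  hdg : ∀ x, dg C x ≤ 1
  hcard : 2 * C.card + (iso C).card = n
  hused : (board n \ U).card = b * C.card
  hiso : (iso C).card ≤ b + r0
  hloss : ∀ x, (loss U x : ℝ) ≤ b * dg C x + lam n b r0

/-- The position after the whole main stage. -/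
def MainPos (k K l : ℕ) (ρ : Fin n → Fin n → Prop) (U C : Finset (Sym2 (Fin n))) : Prop :=
  C ⊆ board n ∧ U ⊆ board n ∧ Disjoint C U ∧ (∀ x y, x ≠ y → ρ x y → s(x, y) ∈ U) ∧
    (∀ x, k ≤ dg C x) ∧ (∀ x, dg C x ≤ K) ∧ Sp l C

/-- The invariant of phase 1: the pairs of `E v` belong to `v`; the vertices of `W` are still to be
processed. -/
structure Inv1 (b k K l s : ℕ) (ρ : Fin n → Fin n → Prop) (E : Fin n → Finset (Sym2 (Fin n)))
    (W : Finset (Fin n)) (U C : Finset (Sym2 (Fin n))) : Prop where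
  hC : C ⊆ board n
  hU : U ⊆ board n
  hd : Disjoint C U
  hres : ∀ x y, x ≠ y → ρ x y → s(x, y) ∈ U
  hsp : Sp l C
  hup : ∀ x, dg C x ≤ K
  hcount : U.card + b * C.card ≤ (board n).card
  hE : ∀ v, ∀ e ∈ E v, v ∈ e
  hEρ : ∀ v x y, ρ x y → s(x, y) ∉ E v
  hdis : ∀ v w, v ≠ w → Disjoint (E v) (E w)
  hown : ∀ v ∈ W, b * (k - dg C v) + s ≤ (E v ∩ U).card
  hlo : ∀ v, v ∉ W → k ≤ dg C v

/-- The free pairs: unselected and not reserved. -/
noncomputable def freeP (ρ : Fin n → Fin n → Prop) (U : Finset (Sym2 (Fin n))) :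
    Finset (Sym2 (Fin n)) := by
  classical exact U.filter fun e => ∀ x y, e = s(x, y) → ¬ ρ x y

theorem mem_freeP {ρ : Fin n → Fin n → Prop} {U : Finset (Sym2 (Fin n))} {e : Sym2 (Fin n)} :
    e ∈ freeP ρ U ↔ e ∈ U ∧ ∀ x y, e = s(x, y) → ¬ ρ x y := by
  classical
  unfold freeP
  exact mem_filter

/-- The numerical condition for Hall's theorem. -/
def NumCond (n b k r0 s : ℕ) : Prop :=
  ∀ a : ℝ, 0 ≤ a → a ≤ n →
    ((b : ℝ) * k + s + r0 + lam n b r0 + 1 / 2 + a / 2 ≤ n) ∨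
    ((b : ℝ) * (n + b + r0) / 2 + a ^ 2 / 2 ≤ a * ((n : ℝ) - 1 / 2 - r0 - s - b * ((k : ℝ) - 1)))

end Pool.Agent.Helper40.WS
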