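import Pool.Agent.Helper72.WC.Lower
import Pool.Agent.Helper72.WD.Seeds
import Pool.Agent.Helper40.WS.Defs
import Pool.Agent.Helper40.WS.Clu

/-!
# Project WS, module Conn: connectivity from the main position

Copy of the second half of `lower_core2` (Helper72/WD/Lower.lean, from `obtain clusters` on) with
`clustersM` in place of `clusters`, `M` in place of `k + 1` and `K0 = (K + 1) * M`.
-/

set_option autoImplicit false

namespace Pool.Agent.Helper40.WS

open Finset Pool.Agent.Helper72.WC Pool.Agent.Helper72.WD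

variable {n : ℕ}

theorem conn_of_main {L M K l k b : ℕ} (hk : 2 ≤ k) (hL : 5 ≤ L) (hM : 0 < M) (hb : 0 < b)
    (hMl : M ≤ l) (hl : (k - 1) * ((K + 1) * M) + k ≤ l) (hkn : k < n)
    (hd : 0 < 2 * n / (3 * k * L)) (h8 : 8 * L * b ≤ 2 * n / (3 * k * L) * M)
    (h2 : 2 * b ≤ M * (2 * n / (3 * k * L)))
    (hN : 3 * L * (k + 1 + k * ((K + 1) * M) * ((K + 1) * M + 1) ^ L) ≤ n)
    (hmain : Force b (MainPos k K l (fun x y : Fin n => relA L x y ∨ relB L x y)) (board n) ∅) :
    Win b (fun C => KConn k (gr C)) (board n) ∅ := by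
  classical
  have hL0 : 0 < L := by omega
  have : NeZero L := ⟨by omega⟩
  set K0 := (K + 1) * M with hK0
  refine Force.win hb (fun C C' h => KConn.mono h) (hmain.trans ?_)
  rintro U1 C1 ⟨hC1, hU1, _, hres, hlo, hup, hsp⟩
  obtain ⟨f, hff, hconn, hcl1, hcl2⟩ := clustersM hC1 hsp (fun x => hk.trans (hlo x)) hup hM hMl
  obtain ⟨g, hg, hg2⟩ := split (L := L) (k := k) (K0 := K0) (by omega) hff hcl2
  have hclass : ∀ (j : Fin k) (r : ZMod L),
      2 * n / (3 * k * L) ≤ (fib L (univ.filter fun v => g v = j) r).card ∧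
      (fib L (univ.filter fun v => g v = j) r).card ≤ 2 * (2 * n / (3 * k * L)) := by
    intro j r
    exact lc_class hL0 (by omega) hN (card_fib_univ r).1 (card_fib_univ r).2
      (hg2 j r).1 (hg2 j r).2
  set d := 2 * n / (3 * k * L) with hd'
  -- the seeds
  refine (seeds2 (n := n) (b := b) (L := L) (d := d) (M := M) hb hM hd hff hg
    (fun j r => (hclass j r).1) (fun j r => (hclass j r).2) hcl1 h8 hconn
    (fun x y hxy h => hres x y hxy (Or.inl h))).trans ?_
  rintro U2 C2 ⟨hC12, hC2, hU2, hused, X, hX⟩
  have hA : ∀ x y : Fin n, relA L x y → relB L x y → False := by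
    intro x y hA hB
    have h3 : (3 : ZMod L) ≠ 0 := by
      intro h
      have : ((3 : ℕ) : ZMod L) = 0 := by exact_mod_cast h
      rw [ZMod.natCast_eq_zero_iff] at this
      have := Nat.le_of_dvd (by norm_num) this
      omega
    have h4 : (1 : ZMod L) ≠ 0 := by
      intro h
      have : ((1 : ℕ) : ZMod L) = 0 := by exact_mod_cast h
      rw [ZMod.natCast_eq_zero_iff] at this
      have := Nat.le_of_dvd (by norm_num) this
      omega
    rcases hA with hA | hA <;> rcases hB with hB | hB
    · apply h4
      have : rs L x + 1 = rs L x + 2 := hA.symm.trans hB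
      linear_combination -this
    · apply h3
      have : rs L x = rs L x + 1 + 2 := by rw [← hA]; exact hB
      linear_combination -this
    · apply h3
      have : rs L y = rs L y + 1 + 2 := by rw [← hA]; exact hB
      linear_combination -this
    · apply h4
      have : rs L y + 1 = rs L y + 2 := hA.symm.trans hB
      linear_combination -this
  have hAs : ∀ x y : Fin n, relA L x y → relA L y x := fun x y h => h.symm
  -- the attachments
  refine (attach (n := n) (b := b) (L := L) (d := d) (M := M) hL hb hff (X := X)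
    ?_ (fun j => (hX j).2.1) (fun j => (hX j).2.2.2) hcl1 h2 (U := U2) (C := C2) ?_).mono ?_
  · intro i j hij
    rw [Finset.disjoint_left]
    intro v hvi hvj
    exact hij (((hX i).1 v hvi).symm.trans ((hX j).1 v hvj))
  · intro x y hxy hB
    by_contra hno
    obtain ⟨x', y', hA', he⟩ := hused _ (hres x y hxy (Or.inr hB)) hno
    rw [Sym2.eq_iff] at he
    rcases he with ⟨rfl, rfl⟩ | ⟨rfl, rfl⟩
    · exact hA _ _ hA' hB
    · exact hA _ _ (hAs _ _ hA') hB
  · rintro U3 C3 ⟨hC23, hC3, hatt⟩
    have hC13 : C1 ⊆ C3 := hC12.trans hC23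
    refine criterion (m0 := (k - 1) * K0) (K0 := K0) (by omega) hkn ?_
      (fun v => (hconn v).mono hC13) hcl2 le_rfl (X := X) (fun j => ((hX j).2.2.1).mono hC23) ?_
      hatt
    · intro A hAne hAc
      refine (small_sets hC1 hsp hlo hk hAne (by omega)).trans (Finset.card_le_card ?_)
      refine Finset.sdiff_subset_sdiff ?_ le_rfl
      refine Finset.biUnion_mono fun x _ => ?_
      intro y hy
      simp only [nb, Finset.mem_filter, Finset.mem_univ, true_and] at hy ⊢
      exact hC13 hy
    · intro i j hij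
      rw [Finset.disjoint_left]
      intro v hvi hvj
      exact hij (((hX i).1 v hvi).symm.trans ((hX j).1 v hvj))

end Pool.Agent.Helper40.WS
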