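import Pool.Agent.Helper40.WS.FreeC

/-!
# Project WS, module Own: the pairs which belong to the vertices (Hall's theorem)

Hall (`Finset.all_card_le_biUnion_card_iff_exists_injective`) for the index type
`Σ v, Fin (b (k - dg C v) + s)`, `t (v, i)` = the free pairs at `v`. For a finite set of indices with
first components `A` (`a = |A|`, `z` of them in `iso C`, `z ≤ |iso C| = N0 ≤ b + r0`, `2 |C| + N0 = n`): at most
`∑_A (b (k - dg) + s) = a (b (k-1) + s) + b z` indices; at least `free_count` pairs; compare by `NumCond` with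
this `a`: first alternative with the second bound of `free_count`, second alternative with the first.
`E v` = the image of the indices `(v, i)`.
-/

set_option autoImplicit false

namespace Pool.Agent.Helper40.WS

open Finset Pool.Agent.Helper72.WC

variable {n : ℕ}

/-- the counting inequality in Hall's condition -/
private theorem own_hall {b k r0 l s : ℕ} {ρ : Fin n → Fin n → Prop} [DecidableRel ρ] (hk : 1 ≤ k)
    (hρ : ∀ x y, ρ x y → ρ y x) (hr : ∀ x, (univ.filter fun y => ρ y x).card ≤ r0)
    {U C : Finset (Sym2 (Fin n))} (h : Ph0 b r0 l ρ U C) (hnum : NumCond n b k r0 s)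
    (A : Finset (Fin n)) :
    ∑ v ∈ A, (b * (k - dg C v) + s) ≤ ((freeP ρ U).filter fun e => ∃ v ∈ A, v ∈ e).card := by
  classical
  obtain ⟨h1, h2⟩ := free_count (k := k) hρ hr h A
  obtain ⟨a, ha⟩ : ∃ a : ℝ, a = (A.card : ℝ) := ⟨_, rfl⟩
  have ha0 : 0 ≤ a := by rw [ha]; positivity
  have han : a ≤ n := by
    rw [ha]
    have : A.card ≤ n := by
      have := Finset.card_le_univ A
      rwa [Fintype.card_fin] at this
    exact_mod_cast this
  have hcast : ((∑ v ∈ A, (b * (k - dg C v) + s) : ℕ) : ℝ) =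
      ∑ v ∈ A, ((b : ℝ) * ((k : ℝ) - (dg C v : ℝ)) + s) := by
    rw [Nat.cast_sum]
    refine Finset.sum_congr rfl fun v _ => ?_
    have h3 : dg C v ≤ k := (h.hdg v).trans hk
    push_cast [Nat.cast_sub h3]
    ring
  have hgoal : ((∑ v ∈ A, (b * (k - dg C v) + s) : ℕ) : ℝ) ≤
      (((freeP ρ U).filter fun e => ∃ v ∈ A, v ∈ e).card : ℝ) := by
    rw [hcast]
    rw [← ha] at h1 h2
    rcases hnum a ha0 han with h3 | h3
    · refine le_trans ?_ h2
      have h4 : ∑ v ∈ A, ((b : ℝ) * ((k : ℝ) - (dg C v : ℝ)) + s) +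
          ∑ v ∈ A, (b * (dg C v : ℝ) + lam n b r0) = a * (b * k + s + lam n b r0) := by
        rw [← Finset.sum_add_distrib]
        have h5 : ∀ v ∈ A, ((b : ℝ) * ((k : ℝ) - (dg C v : ℝ)) + s) +
            (b * (dg C v : ℝ) + lam n b r0) = b * k + s + lam n b r0 := fun v _ => by ring
        rw [Finset.sum_congr rfl h5, Finset.sum_const, nsmul_eq_mul, ← ha]
      have h6 := mul_le_mul_of_nonneg_left h3 ha0
      nlinarith
    · refine le_trans ?_ h1
      have h4 : ∑ v ∈ A, ((b : ℝ) * ((k : ℝ) - (dg C v : ℝ)) + s) =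
          a * (b * ((k : ℝ) - 1) + s) + b * ((A.filter fun v => dg C v = 0).card : ℝ) := by
        have h5 : ∀ v ∈ A, ((b : ℝ) * ((k : ℝ) - (dg C v : ℝ)) + s) =
            (b * ((k : ℝ) - 1) + s) + b * (if dg C v = 0 then (1 : ℝ) else 0) := by
          intro v _
          by_cases h0 : dg C v = 0
          · rw [if_pos h0, h0]
            push_cast
            ring
          · have h7 : dg C v = 1 := by
              have := h.hdg v
              omega
            rw [if_neg h0, h7]
            push_cast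
            ring
        rw [Finset.sum_congr rfl h5, Finset.sum_add_distrib, Finset.sum_const, nsmul_eq_mul,
          ← Finset.mul_sum, Finset.sum_boole, ← ha]
      have h5 : ((A.filter fun v => dg C v = 0).card : ℝ) ≤ ((iso C).card : ℝ) := by
        have : (A.filter fun v => dg C v = 0).card ≤ (iso C).card := by
          refine Finset.card_le_card fun v hv => ?_
          unfold iso
          rw [Finset.mem_filter] at hv ⊢
          exact ⟨Finset.mem_univ v, hv.2⟩
        exact_mod_cast this
      have h6 : ((iso C).card : ℝ) ≤ b + r0 := by exact_mod_cast h.hiso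
      have h7 : 2 * (C.card : ℝ) + ((iso C).card : ℝ) = n := by exact_mod_cast h.hcard
      have hb0 : (0 : ℝ) ≤ b := Nat.cast_nonneg b
      have h8 : (b : ℝ) * ((A.filter fun v => dg C v = 0).card : ℝ) ≤ b * ((iso C).card : ℝ) :=
        mul_le_mul_of_nonneg_left h5 hb0
      have h9 : (b : ℝ) * ((iso C).card : ℝ) ≤ b * (b + r0) :=
        mul_le_mul_of_nonneg_left h6 hb0
      have h10 : 2 * ((b : ℝ) * (C.card : ℝ)) + b * ((iso C).card : ℝ) = b * n := by
        rw [← h7]
        ring
      rw [h4]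
      have h11 : (b : ℝ) * (n + b + r0) / 2 = (b * n + b * (b + r0)) / 2 := by ring
      rw [h11] at h3
      have h12 : a * ((n : ℝ) - 1 / 2 - r0 - s - b * ((k : ℝ) - 1)) =
          a * n - a / 2 - r0 * a - a * (b * ((k : ℝ) - 1) + s) := by ring
      rw [h12] at h3
      linarith
  exact_mod_cast hgoal

theorem own {b k r0 l s : ℕ} {ρ : Fin n → Fin n → Prop} [DecidableRel ρ] (hk : 1 ≤ k)
    (hρ : ∀ x y, ρ x y → ρ y x) (hr : ∀ x, (univ.filter fun y => ρ y x).card ≤ r0)
    {U C : Finset (Sym2 (Fin n))} (h : Ph0 b r0 l ρ U C) (hnum : NumCond n b k r0 s) :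
    ∃ E : Fin n → Finset (Sym2 (Fin n)), (∀ v, E v ⊆ freeP ρ U) ∧ (∀ v, ∀ e ∈ E v, v ∈ e) ∧
      (∀ v w, v ≠ w → Disjoint (E v) (E w)) ∧ ∀ v, b * (k - dg C v) + s ≤ (E v).card := by
  classical
  obtain ⟨f, hf, hft⟩ := (Finset.all_card_le_biUnion_card_iff_exists_injective
    (fun z : (Σ v : Fin n, Fin (b * (k - dg C v) + s)) =>
      (freeP ρ U).filter fun e => z.1 ∈ e)).1 (by
    intro S
    have h1 : S.card ≤ ∑ v ∈ S.image Sigma.fst, (b * (k - dg C v) + s) := by
      rw [Finset.card_eq_sum_card_image Sigma.fst S]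
      refine Finset.sum_le_sum fun v _ => ?_
      have h2 : (S.filter fun z => z.1 = v).card ≤
          ((Finset.univ : Finset (Fin (b * (k - dg C v) + s))).image
            (fun i => (⟨v, i⟩ : Σ v : Fin n, Fin (b * (k - dg C v) + s)))).card := by
        refine Finset.card_le_card fun z hz => ?_
        obtain ⟨-, hzv⟩ := Finset.mem_filter.1 hz
        obtain ⟨w, i⟩ := z
        simp only at hzv
        subst hzv
        exact Finset.mem_image.2 ⟨i, Finset.mem_univ i, rfl⟩
      refine h2.trans (Finset.card_image_le.trans ?_)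
      rw [Finset.card_univ, Fintype.card_fin]
    refine h1.trans ((own_hall hk hρ hr h hnum (S.image Sigma.fst)).trans ?_)
    refine Finset.card_le_card fun e he => ?_
    obtain ⟨he1, v, hv, hve⟩ := Finset.mem_filter.1 he
    obtain ⟨z, hz, rfl⟩ := Finset.mem_image.1 hv
    exact Finset.mem_biUnion.2 ⟨z, hz, Finset.mem_filter.2 ⟨he1, hve⟩⟩)
  refine ⟨fun v => (Finset.univ : Finset (Fin (b * (k - dg C v) + s))).image
    (fun i => f ⟨v, i⟩), ?_, ?_, ?_, ?_⟩
  · intro v e he
    obtain ⟨i, -, rfl⟩ := Finset.mem_image.1 he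
    exact (Finset.mem_filter.1 (hft ⟨v, i⟩)).1
  · intro v e he
    obtain ⟨i, -, rfl⟩ := Finset.mem_image.1 he
    exact (Finset.mem_filter.1 (hft ⟨v, i⟩)).2
  · intro v w hvw
    rw [Finset.disjoint_left]
    intro e he he'
    obtain ⟨i, -, rfl⟩ := Finset.mem_image.1 he
    obtain ⟨j, -, hj⟩ := Finset.mem_image.1 he'
    exact hvw (congrArg Sigma.fst (hf hj)).symm
  · intro v
    rw [Finset.card_image_of_injective, Finset.card_univ, Fintype.card_fin]
    intro i j hij
    have h1 := hf hij
    exact eq_of_heq (Sigma.mk.inj h1).2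

end Pool.Agent.Helper40.WS
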