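import Pool.Agent.Helper40.WS.NumC

/-!
# Project WS, module Params: the choice of the parameters

Choose `e`, `n1` from `num_cond` (`κ > 3` follows from the hypothesis), then `L ≥ 5` with `4 / L ≤ e / 2`, then
`M = 12 k L²` (so that `8 L b ≤ d M` for `d = 2 n / (3 k L)`, using `b ≤ n / 3`), then `K ≥ k + 1` with
`2 κ / K ≤ e / 2`, then `l = (k - 1) * ((K + 1) * M) + k + M`, then `n0`. `s1 = n² / (b K) + 1`, `s = s1 + (K+1)^l`,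
`r0 = 4 (n / L + 1)`.
-/

set_option autoImplicit false

namespace Pool.Agent.Helper40.WS

theorem params {k : ℕ} (hk : 2 ≤ k) {κ : ℝ} (hκ : (2 * (k : ℝ) - 1) * κ + 1 < κ ^ 2)
    (hκ0 : 0 < κ) : ∃ L M K l : ℕ, 5 ≤ L ∧ 0 < M ∧ k ≤ K ∧ 0 < K ∧
      M ≤ l ∧ (k - 1) * ((K + 1) * M) + k ≤ l ∧
      ∃ n0 : ℕ, ∀ n ≥ n0, ∃ b r0 s s1 : ℕ, b = ⌊(n : ℝ) / κ⌋₊ ∧ r0 = 4 * (n / L + 1) ∧
        2 ≤ b ∧ 3 ≤ r0 ∧ b + r0 ≤ n ∧ n ^ 2 ≤ s1 * (b * K) ∧ s1 + (K + 1) ^ l ≤ s ∧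
        NumCond n b k r0 s ∧ k < n ∧ 0 < 2 * n / (3 * k * L) ∧
        8 * L * b ≤ 2 * n / (3 * k * L) * M ∧ 2 * b ≤ M * (2 * n / (3 * k * L)) ∧
        3 * L * (k + 1 + k * ((K + 1) * M) * ((K + 1) * M + 1) ^ L) ≤ n := by
  obtain ⟨e0, he0, n1, hn1⟩ := num_cond hk hκ hκ0
  -- `κ > 3`
  have hk' : (2 : ℝ) ≤ k := by exact_mod_cast hk
  have hκ3 : 3 < κ := by
    by_contra hle
    rw [not_lt] at hle
    nlinarith
  -- a smaller `e`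
  obtain ⟨e, he, hee0, he2⟩ : ∃ e > (0 : ℝ), e ≤ e0 ∧ e ≤ 1 / 2 :=
    ⟨min e0 (1 / 2), lt_min he0 (by norm_num), min_le_left _ _, min_le_right _ _⟩
  obtain ⟨L0, hL0⟩ := exists_nat_ge (8 / e)
  obtain ⟨L, hL⟩ : ∃ L : ℕ, L = L0 + 5 := ⟨_, rfl⟩
  have hL8 : 8 / e ≤ (L : ℝ) := by
    rw [hL]
    push_cast
    linarith
  obtain ⟨M, hM⟩ : ∃ M : ℕ, M = 3 * k * L * (4 * L) := ⟨_, rfl⟩
  obtain ⟨K0, hK0⟩ := exists_nat_ge (4 * κ / e)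
  obtain ⟨K, hK⟩ : ∃ K : ℕ, K = K0 + k := ⟨_, rfl⟩
  have hK4 : 4 * κ / e ≤ (K : ℝ) := by
    rw [hK]
    push_cast
    linarith
  obtain ⟨l, hl⟩ : ∃ l : ℕ, l = (k - 1) * ((K + 1) * M) + k + M := ⟨_, rfl⟩
  obtain ⟨n2, hn2⟩ := exists_nat_ge (8 / e)
  obtain ⟨n3, hn3⟩ := exists_nat_ge (2 * κ)
  obtain ⟨n4, hn4⟩ := exists_nat_ge (2 / e * (1 + ((K + 1) ^ l : ℕ)))
  obtain ⟨n5, hn5⟩ : ∃ n5, n5 = 3 * L * (k + 1 + k * ((K + 1) * M) * ((K + 1) * M + 1) ^ L) :=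
    ⟨_, rfl⟩
  have hLpos : 0 < L := by omega
  have hkL : 0 < 3 * k * L := by positivity
  refine ⟨L, M, K, l, by omega, ?_, by omega, by omega, by omega, by omega,
    n1 + n2 + n3 + n4 + n5 + (k + 1) + 3 * k * L, ?_⟩
  · rw [hM]
    positivity
  intro n hn
  have m1 : n1 ≤ n := by omega
  have m2 : n2 ≤ n := by omega
  have m3 : n3 ≤ n := by omega
  have m4 : n4 ≤ n := by omega
  have m5 : n5 ≤ n := by omega
  have m6 : k < n := by omega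
  have m7 : 3 * k * L ≤ n := by omega
  have hn0 : (0 : ℝ) < n := by
    have : 0 < n := by omega
    exact_mod_cast this
  have hn8 : 8 / e ≤ (n : ℝ) := hn2.trans (by exact_mod_cast m2)
  have hnκ : 2 * κ ≤ (n : ℝ) := hn3.trans (by exact_mod_cast m3)
  have hns : 2 / e * (1 + ((K + 1) ^ l : ℕ)) ≤ (n : ℝ) := hn4.trans (by exact_mod_cast m4)
  obtain ⟨b, hb⟩ : ∃ b, b = ⌊(n : ℝ) / κ⌋₊ := ⟨_, rfl⟩
  have hb1 : (b : ℝ) ≤ n / κ := by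
    rw [hb]
    exact Nat.floor_le (by positivity)
  have hb2 : (n : ℝ) / κ < b + 1 := by
    rw [hb]
    exact Nat.lt_floor_add_one _
  have hb3 : 3 * b ≤ n := by
    have h1 : (b : ℝ) * κ ≤ n := by
      rwa [le_div_iff₀ hκ0] at hb1
    have h2 : (3 : ℝ) * b ≤ n := by
      have h3 : (0 : ℝ) ≤ b := Nat.cast_nonneg b
      nlinarith
    exact_mod_cast h2
  have hb4 : 2 ≤ b := by
    rw [hb]
    apply Nat.le_floor
    rw [le_div_iff₀ hκ0]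
    exact_mod_cast hnκ
  have hb5 : (n : ℝ) ≤ 2 * κ * b := by
    rw [div_lt_iff₀ hκ0] at hb2
    nlinarith
  obtain ⟨r0, hr0⟩ : ∃ r0, r0 = 4 * (n / L + 1) := ⟨_, rfl⟩
  have hr1 : (r0 : ℝ) ≤ e * n := by
    have h1 : ((n / L : ℕ) : ℝ) ≤ (n : ℝ) / L := Nat.cast_div_le
    have hL' : (0 : ℝ) < L := by exact_mod_cast hLpos
    have h2 : (n : ℝ) / L ≤ e * n / 8 := by
      rw [div_le_iff₀ hL']
      rw [div_le_iff₀ he] at hL8
      nlinarith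
    have h3 : 8 ≤ e * n := by
      rw [div_le_iff₀ he] at hn8
      linarith
    rw [hr0]
    push_cast
    linarith
  have hr2 : 2 * r0 ≤ n := by
    have h1 : (2 : ℝ) * r0 ≤ n := by nlinarith
    exact_mod_cast h1
  obtain ⟨s1, hs1⟩ : ∃ s1, s1 = n ^ 2 / (b * K) + 1 := ⟨_, rfl⟩
  have hKpos : 0 < K := by omega
  have hbK : 0 < b * K := Nat.mul_pos (by omega) hKpos
  have hs2 : n ^ 2 ≤ s1 * (b * K) := by
    rw [hs1, mul_comm]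
    exact (Nat.lt_mul_div_succ (n ^ 2) hbK).le
  obtain ⟨s, hs⟩ : ∃ s, s = s1 + (K + 1) ^ l := ⟨_, rfl⟩
  have hs3 : (s : ℝ) ≤ e * n := by
    have h1 : ((n ^ 2 / (b * K) : ℕ) : ℝ) ≤ ((n ^ 2 : ℕ) : ℝ) / ((b * K : ℕ) : ℝ) :=
      Nat.cast_div_le
    have hbK' : (0 : ℝ) < ((b * K : ℕ) : ℝ) := by exact_mod_cast hbK
    have h2 : ((n ^ 2 : ℕ) : ℝ) / ((b * K : ℕ) : ℝ) ≤ e * n / 2 := by
      rw [div_le_iff₀ hbK']
      push_cast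
      have h3 : 4 * κ ≤ K * e := by
        rwa [div_le_iff₀ he] at hK4
      have h4 : (0 : ℝ) ≤ b := Nat.cast_nonneg b
      have h5 : 2 * (n : ℝ) ≤ b * (K * e) := by nlinarith
      nlinarith
    have h6 : 2 * (1 + ((K + 1) ^ l : ℕ)) ≤ e * n := by
      have h7 := mul_le_mul_of_nonneg_left hns he.le
      have h8 : e * (2 / e * (1 + (((K + 1) ^ l : ℕ) : ℝ))) = 2 * (1 + (((K + 1) ^ l : ℕ) : ℝ)) := by
        field_simp
      rw [h8] at h7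
      exact h7
    rw [hs, hs1]
    push_cast at h1 h2 h6 ⊢
    linarith
  have hd : 2 * n < (2 * n / (3 * k * L) + 1) * (3 * k * L) := by
    have h1 := Nat.lt_mul_div_succ (2 * n) hkL
    rwa [mul_comm (3 * k * L) (2 * n / (3 * k * L) + 1)] at h1
  obtain ⟨d, hd0⟩ : ∃ d, d = 2 * n / (3 * k * L) := ⟨_, rfl⟩
  rw [← hd0] at hd
  have hd1 : 2 * b ≤ d * (3 * k * L) := by
    rw [add_mul, one_mul] at hd
    omega
  have h3r : 3 ≤ r0 := by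
    obtain ⟨x, hx⟩ : ∃ x, x = n / L := ⟨_, rfl⟩
    rw [← hx] at hr0
    omega
  have hbr : b + r0 ≤ n := by
    clear hr0 hs hs1 hs2 hl hM hn5 hd hd0 hd1 hbK
    omega
  refine ⟨b, r0, s, s1, hb, hr0, hb4, h3r, hbr, hs2, hs.symm.le, ?_, m6, ?_, ?_, ?_, ?_⟩
  · rw [hb]
    exact hn1 n m1 r0 s (hr1.trans (mul_le_mul_of_nonneg_right hee0 hn0.le))
      (hs3.trans (mul_le_mul_of_nonneg_right hee0 hn0.le))
  · rw [Nat.div_pos_iff]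
    exact ⟨hkL, by omega⟩
  · rw [← hd0, hM]
    calc 8 * L * b = 2 * b * (4 * L) := by ring
      _ ≤ d * (3 * k * L) * (4 * L) := Nat.mul_le_mul_right _ hd1
      _ = d * (3 * k * L * (4 * L)) := by ring
  · rw [← hd0, hM]
    calc 2 * b ≤ d * (3 * k * L) := hd1
      _ ≤ d * (3 * k * L) * (4 * L) := Nat.le_mul_of_pos_right _ (by omega)
      _ = 3 * k * L * (4 * L) * d := by ring
  · rw [← hn5]
    exact m5

end Pool.Agent.Helper40.WS
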