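import Pool.Agent.Helper40.WS.InvStep

/-!
# Project WS, module Phase0: the first phase

`start0`: the empty position (`iso ∅ = univ`, all losses are 0, `Z = ∅`, `avg_start`).
`phase0`: `Force.loop` with `J i` = (`Inv0` and (`|iso C| + 2 i = n` or `|iso C| ≤ b + r0`)), `n` rounds
(`inv_step` while `|iso C| > b + r0`); at the end `Ph0` (`loss_iso` for `iso C`, `hloss` and `dg = 1` outside).
-/

set_option autoImplicit false

namespace Pool.Agent.Helper40.WS

open Finset Pool.Agent.Helper72.WC

variable {n : ℕ}

private theorem dg_empty' (x : Fin n) : dg (∅ : Finset (Sym2 (Fin n))) x = 0 := by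
  simp [dg, nb]

private theorem iso_empty' : iso (∅ : Finset (Sym2 (Fin n))) = univ := by
  simp [iso, dg_empty']

private theorem loss_board' (x : Fin n) : loss (board n) x = 0 := by
  simp [loss]

private theorem mem_board' {x y : Fin n} (h : x ≠ y) : s(x, y) ∈ board n := by
  simp [board, h]

theorem start0 {b r0 l : ℕ} {ρ : Fin n → Fin n → Prop} [DecidableRel ρ] (hn : b + r0 ≤ n)
    (hn3 : 3 ≤ n) : Inv0 b r0 l ρ (board n) ∅ := by
  have hcn : (iso (∅ : Finset (Sym2 (Fin n)))).card = n := by
    rw [iso_empty', Finset.card_univ, Fintype.card_fin]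
  refine
    { hC := Finset.empty_subset _
      hU := Finset.Subset.refl _
      hd := Finset.disjoint_empty_left _
      hres := fun x y h _ => mem_board' h
      hin := fun x _ y _ h => mem_board' h
      hsp := ?_
      hdg := fun x => by rw [dg_empty']; exact Nat.zero_le _
      hcard := by rw [hcn]; simp
      hused := by simp
      hN := by rw [hcn]; omega
      hbal := ⟨∅, by simp, fun w _ u _ => by rw [loss_board', loss_board']; simp⟩
      hsum := ?_
      hloss := fun x hx => absurd (by rw [iso_empty']; exact Finset.mem_univ _) hx }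
  · intro W hW _
    rw [Finset.filter_empty, Finset.card_empty]
    exact hW.card_pos
  · rw [hcn, avg_start hn3, mul_zero]
    simp [loss_board']

theorem phase0 {b r0 l : ℕ} {ρ : Fin n → Fin n → Prop} [DecidableRel ρ]
    (hρ : ∀ x y, ρ x y → ρ y x) (hr : ∀ x, (univ.filter fun y => ρ y x).card ≤ r0) (hb : 1 ≤ b)
    (hr3 : 3 ≤ r0) (hn : b + r0 ≤ n) : Force b (Ph0 b r0 l ρ) (board n) ∅ := by
  have hn3 : 3 ≤ n := by omega
  have h0 : Inv0 b r0 l ρ (board n) ∅ := start0 hn hn3
  have hcn : (iso (∅ : Finset (Sym2 (Fin n)))).card = n := by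
    rw [iso_empty', Finset.card_univ, Fintype.card_fin]
  have hloop := Force.loop (b := b) (U := board n) (C := ∅)
    (fun i U C => Inv0 b r0 l ρ U C ∧ ((iso C).card + 2 * i = n ∨ (iso C).card ≤ b + r0)) n
    (by
      intro i _ U C hJ
      obtain ⟨hI, hc⟩ := hJ
      by_cases hbig : b + r0 < (iso C).card
      · refine (inv_step hρ hr hb hr3 hI hbig).mono ?_
        rintro U' C' ⟨hI', hc'⟩
        refine ⟨hI', ?_⟩
        rcases hc with hc | hc
        · left; omega
        · omega
      · exact Force.here ⟨hI, Or.inr (by omega)⟩)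
    ⟨h0, Or.inl (by rw [hcn]; omega)⟩
  refine hloop.mono ?_
  rintro U C ⟨hI, hc⟩
  have hcc : (iso C).card ≤ b + r0 := by
    rcases hc with hc | hc
    · omega
    · exact hc
  refine
    { hC := hI.hC
      hU := hI.hU
      hd := hI.hd
      hres := hI.hres
      hsp := hI.hsp
      hdg := hI.hdg
      hcard := hI.hcard
      hused := hI.hused
      hiso := hcc
      hloss := ?_ }
  intro x
  by_cases hx : x ∈ iso C
  · have hd0 : dg C x = 0 := (Finset.mem_filter.1 hx).2
    have := loss_iso hr hb hr3 hI x hx
    rw [hd0]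
    simpa using this
  · have hd1 : dg C x = 1 := by
      have h1 := hI.hdg x
      have h2 : dg C x ≠ 0 := fun h => hx (Finset.mem_filter.2 ⟨Finset.mem_univ _, h⟩)
      omega
    have := hI.hloss x hx
    rw [hd1]
    simpa using this

end Pool.Agent.Helper40.WS
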