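import Pool.Agent.Helper40.WS.Round1

/-!
# Project WS, module Phase1: the second phase

For each vertex repeat `round1` until its degree is `k`, then remove it from `W`: induction on
`∑_{v ∈ W} (k - dg C v) + |W|`, or `Force.loop` twice.
-/

set_option autoImplicit false

namespace Pool.Agent.Helper40.WS

open Finset Pool.Agent.Helper72.WC

variable {n : ℕ}

private theorem Phase1_aux {b k K l s s1 : ℕ} {ρ : Fin n → Fin n → Prop} (hb : 0 < b)
    (hkK : k ≤ K) (hs1 : n ^ 2 ≤ s1 * (b * K)) (hs : s1 + (K + 1) ^ l ≤ s)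
    {E : Fin n → Finset (Sym2 (Fin n))} :
    ∀ (m : ℕ) (W : Finset (Fin n)) (U C : Finset (Sym2 (Fin n))),
      (∑ v ∈ W, (k - dg C v)) + W.card ≤ m → Inv1 b k K l s ρ E W U C →
      Force b (MainPos k K l ρ) U C := by
  intro m
  induction m with
  | zero =>
    intro W U C hm h
    have hW : W = ∅ := by
      rw [← Finset.card_eq_zero]
      omega
    subst hW
    exact Force.here ⟨h.hC, h.hU, h.hd, h.hres, fun x => h.hlo x (Finset.notMem_empty x),
      h.hup, h.hsp⟩
  | succ m ih =>
    intro W U C hm h
    rcases W.eq_empty_or_nonempty with hW | ⟨v, hv⟩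
    · subst hW
      exact Force.here ⟨h.hC, h.hU, h.hd, h.hres, fun x => h.hlo x (Finset.notMem_empty x),
        h.hup, h.hsp⟩
    · rcases Nat.lt_or_ge (dg C v) k with hk | hk
      · refine (round1 hb hkK hs1 hs h hv hk).trans fun U' C' h' => ?_
        obtain ⟨h1, h2, h3⟩ := h'
        refine ih W U' C' ?_ h1
        have h4 : ∑ x ∈ W, (k - dg C' x) < ∑ x ∈ W, (k - dg C x) := by
          refine Finset.sum_lt_sum (fun x _ => ?_) ⟨v, hv, ?_⟩
          · have := h2 x
            omega
          · omega
        omega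
      · refine ih (W.erase v) U C ?_ ?_
        · have h1 : ∑ x ∈ W.erase v, (k - dg C x) ≤ ∑ x ∈ W, (k - dg C x) :=
            Finset.sum_le_sum_of_subset (Finset.erase_subset _ _)
          have h2 := Finset.card_erase_of_mem hv
          have h3 : 0 < W.card := Finset.card_pos.2 ⟨v, hv⟩
          omega
        · exact { hC := h.hC, hU := h.hU, hd := h.hd, hres := h.hres, hsp := h.hsp,
                  hup := h.hup, hcount := h.hcount, hE := h.hE, hEρ := h.hEρ, hdis := h.hdis,
                  hown := fun w hw => h.hown w (Finset.mem_of_mem_erase hw)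
                  hlo := fun w hw => by
                    by_cases hwv : w = v
                    · rw [hwv]; exact hk
                    · exact h.hlo w fun hwW => hw (Finset.mem_erase.2 ⟨hwv, hwW⟩) }

theorem phase1 {b k K l s s1 : ℕ} {ρ : Fin n → Fin n → Prop} (hb : 0 < b) (hkK : k ≤ K)
    (hs1 : n ^ 2 ≤ s1 * (b * K)) (hs : s1 + (K + 1) ^ l ≤ s)
    {E : Fin n → Finset (Sym2 (Fin n))} {U C : Finset (Sym2 (Fin n))}
    (h : Inv1 b k K l s ρ E univ U C) : Force b (MainPos k K l ρ) U C :=
  Phase1_aux hb hkK hs1 hs _ univ U C le_rfl h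

end Pool.Agent.Helper40.WS
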