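import Pool.Agent.Helper72.WC.Final
import Pool.Agent.Helper40.WS.Phase0
import Pool.Agent.Helper40.WS.Own
import Pool.Agent.Helper40.WS.Phase1
import Pool.Agent.Helper40.WS.Params
import Pool.Agent.Helper40.WS.Conn

/-!
# Project WS, module Final
-/

set_option autoImplicit false

namespace Pool.Agent.Helper40.WS

open Finset Pool.Agent.Helper72.WC

variable {n : ℕ}

theorem main_small {b k K l r0 s s1 : ℕ} {ρ : Fin n → Fin n → Prop} [DecidableRel ρ]
    (hρ : ∀ x y, ρ x y → ρ y x) (hr : ∀ x, (univ.filter fun y => ρ x y).card ≤ r0) (hb : 1 ≤ b)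
    (hk : 1 ≤ k) (hkK : k ≤ K) (hr3 : 3 ≤ r0) (hn : b + r0 ≤ n)
    (hs1 : n ^ 2 ≤ s1 * (b * K)) (hs : s1 + (K + 1) ^ l ≤ s) (hnum : NumCond n b k r0 s) :
    Force b (MainPos k K l ρ) (board n) ∅ := by
  have hr' : ∀ x, (univ.filter fun y => ρ y x).card ≤ r0 := by
    intro x
    have h1 : (univ.filter fun y => ρ y x) = (univ.filter fun y => ρ x y) := by
      ext y
      simp only [mem_filter, mem_univ, true_and]
      exact ⟨hρ _ _, hρ _ _⟩
    rw [h1]
    exact hr x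
  refine (phase0 (l := l) hρ hr' hb hr3 hn).trans ?_
  intro U C h
  obtain ⟨E, hE1, hE2, hE3, hE4⟩ := own (s := s) hk hρ hr' h hnum
  have hfree : ∀ v, ∀ e ∈ E v, e ∈ U ∧ ∀ x y, e = s(x, y) → ¬ ρ x y := by
    intro v e he
    exact mem_freeP.1 (hE1 v he)
  have hEU : ∀ v, E v ⊆ U := fun v e he => (hfree v e he).1
  refine phase1 (E := E) (s := s) (s1 := s1) (by omega) hkK hs1 hs ?_
  refine ⟨h.hC, h.hU, h.hd, h.hres, h.hsp, ?_, ?_, hE2, ?_, hE3, ?_, ?_⟩
  · intro x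
    have := h.hdg x
    omega
  · have h1 := h.hused
    have h2 := card_sdiff_add_card_eq_card h.hU
    omega
  · intro v x y hxy he
    exact (hfree v _ he).2 x y rfl hxy
  · intro v _
    rw [inter_eq_left.2 (hEU v)]
    exact hE4 v
  · intro v hv
    exact absurd (mem_univ v) hv

theorem lower_small {k : ℕ} (hk : 2 ≤ k) {κ : ℝ} (hκ : (2 * (k : ℝ) - 1) * κ + 1 < κ ^ 2)
    (hκ0 : 0 < κ) : ∃ n0 : ℕ, ∀ n ≥ n0, (n : ℝ) / κ ≤ qC k n := by
  have hk' : (2 : ℝ) ≤ k := by exact_mod_cast hk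
  -- a slightly smaller `κ'`
  obtain ⟨κ', hκ', hlt, hpos⟩ : ∃ κ' : ℝ, (2 * (k : ℝ) - 1) * κ' + 1 < κ' ^ 2 ∧ κ' < κ ∧ 0 < κ' := by
    have h3 : 3 < κ := by nlinarith
    set g : ℝ := κ ^ 2 - (2 * (k : ℝ) - 1) * κ - 1 with hg
    have hg0 : 0 < g := by rw [hg]; linarith
    refine ⟨κ - min 1 (g / (4 * κ)), ?_, ?_, ?_⟩
    · set d := min 1 (g / (4 * κ)) with hd
      have hd0 : 0 < d := by
        rw [hd]
        exact lt_min one_pos (by positivity)
      have hd2 : d ≤ g / (4 * κ) := min_le_right _ _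
      have hd3 : d * (4 * κ) ≤ g := by
        rwa [le_div_iff₀ (by positivity)] at hd2
      have hd1 : d ≤ 1 := min_le_left _ _
      nlinarith [mul_pos hd0 hd0, mul_nonneg hd0.le (by linarith : (0 : ℝ) ≤ 2 * (k : ℝ) - 1)]
    · have : 0 < min 1 (g / (4 * κ)) := lt_min one_pos (by positivity)
      linarith
    · have : min 1 (g / (4 * κ)) ≤ 1 := min_le_left _ _
      linarith
  obtain ⟨L, M, K, l, hL, hM, hkK, hK, hMl, hl, n1, hn1⟩ := params hk hκ' hpos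
  obtain ⟨n2, hn2⟩ := exists_nat_gt (2 * κ' * κ / (κ - κ'))
  refine ⟨max n1 (max n2 2), fun n hn => ?_⟩
  have hnn1 : n1 ≤ n := (le_max_left _ _).trans hn
  have hnn2 : n2 ≤ n := ((le_max_left _ _).trans (le_max_right _ _)).trans hn
  have hn2' : 2 ≤ n := ((le_max_right _ _).trans (le_max_right _ _)).trans hn
  obtain ⟨b, r0, s, s1, hb, hr0, hb2, hr3, hbr, hs1, hs, hnum, hkn, hd, h8, h2, hN⟩ := hn1 n hnn1
  have : NeZero L := ⟨by omega⟩
  have hmain : Force b (MainPos k K l (fun x y : Fin n => relA L x y ∨ relB L x y)) (board n) ∅ := by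
    refine main_small (r0 := r0) (s := s) (s1 := s1) ?_ ?_ (by omega) (by omega) hkK hr3 hbr hs1 hs
      hnum
    · rintro x y (h | h)
      · exact Or.inl h.symm
      · exact Or.inr h.symm
    · intro x
      rw [hr0]
      exact card_rel x
  have hwin := conn_of_main hk hL hM (by omega) hMl hl hkn hd h8 h2 hN hmain
  obtain ⟨q, hq⟩ : ∃ q, b = q + 1 := ⟨b - 1, by omega⟩
  rw [hq] at hwin
  have h9 : q ≤ qC k n :=
    le_csSup ((bdd_D (by omega) hn2').mono sub_CD) ⟨by omega, hwin⟩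
  refine le_trans ?_ (Nat.cast_le.2 h9)
  have h10 : (n : ℝ) < κ' * (q + 2) := by
    have h11 := Nat.lt_floor_add_one ((n : ℝ) / κ')
    rw [← hb, hq, div_lt_iff₀ hpos] at h11
    push_cast at h11
    linarith
  have h11 : (2 : ℝ) * κ' * κ ≤ n * (κ - κ') := by
    have h12 : (2 : ℝ) * κ' * κ / (κ - κ') ≤ n := by
      refine hn2.le.trans ?_
      exact_mod_cast hnn2
    rwa [div_le_iff₀ (by linarith)] at h12
  rw [div_le_iff₀ hκ0]
  have h13 : κ' * n ≤ κ' * (q * κ) := by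
    have h14 : ((n : ℝ) - 2 * κ') * κ ≤ κ' * q * κ := by
      refine mul_le_mul_of_nonneg_right ?_ hκ0.le
      linarith
    nlinarith
  exact le_of_mul_le_mul_left h13 hpos

theorem small_final {k : ℕ} (hk : 2 ≤ k) {ε : ℝ} (hε : 0 < ε) : ∃ n0 : ℕ, ∀ n ≥ n0,
    (n : ℝ) / ((2 * (k : ℝ) - 1 + √((2 * (k : ℝ) - 1) ^ 2 + 4)) / 2 + ε) ≤ qC k n := by
  have hk' : (2 : ℝ) ≤ k := by exact_mod_cast hk
  set m : ℝ := 2 * (k : ℝ) - 1 with hm
  have hm3 : 3 ≤ m := by rw [hm]; linarith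
  set t := √(m ^ 2 + 4) with ht
  have ht2 : t ^ 2 = m ^ 2 + 4 := Real.sq_sqrt (by positivity)
  have ht0 : 0 < t := Real.sqrt_pos.2 (by positivity)
  refine lower_small hk (κ := (m + t) / 2 + ε) ?_ (by positivity)
  rw [← hm]
  nlinarith [mul_pos hε ht0, mul_pos hε hε]

end Pool.Agent.Helper40.WS
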