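import Pool.Agent.Helper40.WS.Meet

/-!
# Project WS, module FreeC: the number of the free pairs which meet a set

The pairs of the board which meet `A` (`board_meet`) are free, used (not in `U`) or reserved; the reserved
ones are at most `r0 |A|` (`reserved_meet`); the used ones at most `|board \ U| = b |C|` and at most
`∑_A loss ≤ ∑_A (b dg + lam)` (`Ph0.hloss`).
-/

set_option autoImplicit false

namespace Pool.Agent.Helper40.WS

open Finset Pool.Agent.Helper72.WC

variable {n : ℕ}

theorem free_count {b k r0 l : ℕ} {ρ : Fin n → Fin n → Prop} [DecidableRel ρ]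
    (hρ : ∀ x y, ρ x y → ρ y x) (hr : ∀ x, (univ.filter fun y => ρ y x).card ≤ r0)
    {U C : Finset (Sym2 (Fin n))} (h : Ph0 b r0 l ρ U C) (A : Finset (Fin n)) :
    (A.card * n - (A.card : ℝ) ^ 2 / 2 - A.card / 2 - r0 * A.card - b * C.card ≤
      (((freeP ρ U).filter fun e => ∃ v ∈ A, v ∈ e).card : ℝ)) ∧
    (A.card * n - (A.card : ℝ) ^ 2 / 2 - A.card / 2 - r0 * A.card -
        ∑ v ∈ A, (b * (dg C v : ℝ) + lam n b r0) ≤
      (((freeP ρ U).filter fun e => ∃ v ∈ A, v ∈ e).card : ℝ)) := by
  classical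
  set T : Finset (Sym2 (Fin n)) := ((board n).filter fun e => ∃ v ∈ A, v ∈ e).filter
    fun e => ∃ x y, e = s(x, y) ∧ ρ x y with hT
  have hTc : T.card ≤ r0 * A.card := by
    refine reserved_meet hρ hr A (T := T) (fun e he => ?_) (fun e he => ?_)
    · exact (mem_filter.1 he).2
    · exact (mem_filter.1 (mem_filter.1 he).1).2
  have hsub : ((board n).filter fun e => ∃ v ∈ A, v ∈ e) ⊆
      ((freeP ρ U).filter fun e => ∃ v ∈ A, v ∈ e) ∪
        (((board n \ U).filter fun e => ∃ v ∈ A, v ∈ e) ∪ T) := by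
    intro e he
    have h1 := mem_filter.1 he
    by_cases hU : e ∈ U
    · by_cases hρe : ∃ x y, e = s(x, y) ∧ ρ x y
      · exact mem_union_right _ (mem_union_right _ (mem_filter.2 ⟨he, hρe⟩))
      · refine mem_union_left _ (mem_filter.2 ⟨?_, h1.2⟩)
        simp only [freeP, mem_filter]
        exact ⟨hU, fun x y hxy hρxy => hρe ⟨x, y, hxy, hρxy⟩⟩
    · exact mem_union_right _ (mem_union_left _ (mem_filter.2 ⟨mem_sdiff.2 ⟨h1.1, hU⟩, h1.2⟩))
  have hcard : (((board n).filter fun e => ∃ v ∈ A, v ∈ e).card : ℝ) ≤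
      (((freeP ρ U).filter fun e => ∃ v ∈ A, v ∈ e).card : ℝ) +
        ((((board n \ U).filter fun e => ∃ v ∈ A, v ∈ e).card : ℝ) + r0 * A.card) := by
    have h1 := (card_le_card hsub).trans (card_union_le _ _)
    have h2 := card_union_le ((board n \ U).filter fun e => ∃ v ∈ A, v ∈ e) T
    have h3 : ((board n).filter fun e => ∃ v ∈ A, v ∈ e).card ≤
        ((freeP ρ U).filter fun e => ∃ v ∈ A, v ∈ e).card +
        (((board n \ U).filter fun e => ∃ v ∈ A, v ∈ e).card + r0 * A.card) := by omega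
    exact_mod_cast h3
  rw [board_meet A] at hcard
  constructor
  · have h1 : (((board n \ U).filter fun e => ∃ v ∈ A, v ∈ e).card : ℝ) ≤ b * C.card := by
      have h2 := card_filter_le (board n \ U) fun e => ∃ v ∈ A, v ∈ e
      rw [h.hused] at h2
      exact_mod_cast h2
    linarith
  · have h1 : (((board n \ U).filter fun e => ∃ v ∈ A, v ∈ e).card : ℝ) ≤
        ∑ v ∈ A, (b * (dg C v : ℝ) + lam n b r0) := by
      have h2 : ((board n \ U).filter fun e => ∃ v ∈ A, v ∈ e) ⊆
          A.biUnion fun v => (board n \ U).filter fun e => v ∈ e := by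
        intro e he
        obtain ⟨he1, v, hv, hve⟩ := mem_filter.1 he
        exact mem_biUnion.2 ⟨v, hv, mem_filter.2 ⟨he1, hve⟩⟩
      have h3 : ((board n \ U).filter fun e => ∃ v ∈ A, v ∈ e).card ≤ ∑ v ∈ A, loss U v :=
        (card_le_card h2).trans card_biUnion_le
      have h4 : (((board n \ U).filter fun e => ∃ v ∈ A, v ∈ e).card : ℝ) ≤
          ∑ v ∈ A, (loss U v : ℝ) := by
        exact_mod_cast h3
      exact h4.trans (sum_le_sum fun v _ => h.hloss v)
    linarith

end Pool.Agent.Helper40.WS
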