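import Pool.Agent.Helper40.WS.Step0

/-!
# Project WS, module InvStep: one round of phase 0

`loss_iso`: for `x ∈ iso C`: sum `hbal` (with `hr`) over `u ∈ iso C`: `N loss x ≤ S + N (r0 + 1)`, so
`loss x ≤ avg N + r0 + 1 ≤ lam` (`avg_le_lam`, `N ≥ b + r0 - 1 ≥ b + 2`).
`inv_step`: if `|iso C| > b + r0` take any `v ∈ iso C`; the available vertices `(iso C).erase v` without
the `ρ`-neighbours of `v` are at least `b`; `B` = the `b` of them with the smallest losses (`bot`);
play the star (`Force.play` with `B.image fun y => s(v, y)`, then `Force.here`); the new `Z` is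
`insert v Z`; `bal_step` with `V0 = (iso C).erase v`, `ls = loss U`, `ex u = (Z.filter (ρ · u)).card`,
`E` = the `y` with `ρ v y`; `sum_step` and `avg_step` for the sum; `iso_step`, `loss_step`, `sp_step`
(Step0) for the bookkeeping. `hloss`: `v`: `loss v + b ≤ lam + b`; `z`: `loss z + 1 ≤ lam + b`.
-/

set_option autoImplicit false

namespace Pool.Agent.Helper40.WS

open Finset Pool.Agent.Helper72.WC

variable {n : ℕ}

private theorem InvStep_inj (v : Fin n) : Function.Injective fun y : Fin n => s(v, y) := by
  intro y y' h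
  have h1 : s(v, y) = s(v, y') := h
  rw [Sym2.eq_iff] at h1
  rcases h1 with ⟨_, h2⟩ | ⟨h2, h3⟩
  · exact h2
  · rw [h3, h2]

/-- The balance with the constant `r0`. -/
private theorem InvStep_bal {b r0 l : ℕ} {ρ : Fin n → Fin n → Prop} [DecidableRel ρ]
    (hr : ∀ x, (univ.filter fun y => ρ y x).card ≤ r0)
    {U C : Finset (Sym2 (Fin n))} (h : Inv0 b r0 l ρ U C) :
    ∀ w ∈ iso C, ∀ u ∈ iso C, loss U w ≤ loss U u + r0 + 1 := by
  intro w hw u hu
  obtain ⟨Z, _, hZ⟩ := h.hbal
  have h1 := hZ w hw u hu
  have h2 : (Z.filter fun z => ρ z u).card ≤ r0 :=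
    (Finset.card_le_card (Finset.filter_subset_filter _ (Finset.subset_univ Z))).trans (hr u)
  omega

/-- The loss of a vertex of degree 0. -/
theorem loss_iso {b r0 l : ℕ} {ρ : Fin n → Fin n → Prop} [DecidableRel ρ]
    (hr : ∀ x, (univ.filter fun y => ρ y x).card ≤ r0) (hb : 1 ≤ b) (hr3 : 3 ≤ r0)
    {U C : Finset (Sym2 (Fin n))} (h : Inv0 b r0 l ρ U C) :
    ∀ x ∈ iso C, (loss U x : ℝ) ≤ lam n b r0 := by
  intro x hx
  have hbal := InvStep_bal hr h
  have hNn : (iso C).card ≤ n := by
    have := Finset.card_le_univ (iso C)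
    rwa [Fintype.card_fin] at this
  have hN2 : b + 2 ≤ (iso C).card := by
    have := h.hN
    omega
  have h1 := avg_le_lam (r0 := r0) hb hN2 hNn
  have hNpos : (0 : ℝ) < ((iso C).card : ℝ) := by
    have : 0 < (iso C).card := by omega
    exact_mod_cast this
  have h2 : ((iso C).card : ℝ) * (loss U x : ℝ) ≤
      (∑ u ∈ iso C, (loss U u : ℝ)) + (iso C).card * ((r0 : ℝ) + 1) := by
    calc ((iso C).card : ℝ) * (loss U x : ℝ) = ∑ _u ∈ iso C, (loss U x : ℝ) := by
          rw [Finset.sum_const, nsmul_eq_mul]
      _ ≤ ∑ u ∈ iso C, ((loss U u : ℝ) + ((r0 : ℝ) + 1)) :=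
          Finset.sum_le_sum fun u hu => by
            have h3 := hbal x hx u hu
            have h4 : (loss U x : ℝ) ≤ ((loss U u + r0 + 1 : ℕ) : ℝ) := by exact_mod_cast h3
            push_cast at h4
            linarith
      _ = _ := by rw [Finset.sum_add_distrib, Finset.sum_const, nsmul_eq_mul]
  have h3 : ((iso C).card : ℝ) * (loss U x : ℝ) ≤
      (iso C).card * (avg n b r0 (iso C).card + r0 + 1) := by
    have := h.hsum
    nlinarith
  have h4 := le_of_mul_le_mul_left h3 hNpos
  linarith

theorem inv_step {b r0 l : ℕ} {ρ : Fin n → Fin n → Prop} [DecidableRel ρ]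
    (hρ : ∀ x y, ρ x y → ρ y x) (hr : ∀ x, (univ.filter fun y => ρ y x).card ≤ r0) (hb : 1 ≤ b)
    (hr3 : 3 ≤ r0) {U C : Finset (Sym2 (Fin n))} (h : Inv0 b r0 l ρ U C)
    (hN : b + r0 < (iso C).card) :
    Force b (fun U' C' => Inv0 b r0 l ρ U' C' ∧ (iso C').card + 2 = (iso C).card) U C := by
  classical
  obtain ⟨v, hv⟩ : (iso C).Nonempty := by
    rw [← Finset.card_pos]
    omega
  have hbal := InvStep_bal hr h
  have hNn : (iso C).card ≤ n := by
    have := Finset.card_le_univ (iso C)
    rwa [Fintype.card_fin] at this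
  -- the available vertices
  obtain ⟨Av, hAv⟩ : ∃ Av : Finset (Fin n), Av = ((iso C).erase v).filter fun y => ¬ ρ v y :=
    ⟨_, rfl⟩
  have hAvb : b ≤ Av.card := by
    have h1 : ((iso C).erase v).card = (iso C).card - 1 := Finset.card_erase_of_mem hv
    have h2 := Finset.card_filter_add_card_filter_not (s := (iso C).erase v) (fun y => ρ v y)
    have h3 : (((iso C).erase v).filter fun y => ρ v y).card ≤ r0 := by
      refine (Finset.card_le_card ?_).trans (hr v)
      intro y hy
      rw [mem_filter] at hy ⊢
      exact ⟨mem_univ _, hρ _ _ hy.2⟩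
    rw [← hAv] at h2
    omega
  obtain ⟨B, hBAv, hBb, hBmin⟩ := bot (loss U) Av b hAvb
  have hBV : B ⊆ (iso C).erase v := by
    rw [hAv] at hBAv
    exact hBAv.trans (Finset.filter_subset _ _)
  have hBiso : B ⊆ iso C := hBV.trans (Finset.erase_subset _ _)
  have hvB : v ∉ B := fun hh => Finset.notMem_erase v (iso C) (hBV hh)
  have hBρ : ∀ y ∈ B, ¬ ρ v y := by
    intro y hy
    have h1 := hBAv hy
    rw [hAv, mem_filter] at h1
    exact h1.2
  have hinB : ∀ y ∈ B, s(v, y) ∈ U := fun y hy =>
    h.hin v hv y (hBiso hy) (fun hh => hvB (by rw [hh]; exact hy))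
  obtain ⟨hls1, hls2, hls3⟩ := loss_step (C := C) h.hU hinB hvB
  refine Force.play (B.image fun y => s(v, y)) ?_ ?_ ?_
  · intro e he
    obtain ⟨y, hy, rfl⟩ := Finset.mem_image.1 he
    exact hinB y hy
  · rw [Finset.card_image_of_injective _ (InvStep_inj v)]
    exact hBb
  · intro e he
    obtain ⟨z, hz, rfl⟩ := Finset.mem_image.1 he
    have hzV : z ∈ (iso C).erase v := hBV hz
    have hziso : z ∈ iso C := hBiso hz
    have hvz : v ≠ z := fun hh => hvB (by rw [hh]; exact hz)
    obtain ⟨hiso, hdg⟩ := iso_step hv hziso hvz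
    have hcard' : (((iso C).erase v).erase z).card = (iso C).card - 2 := by
      rw [Finset.card_erase_of_mem hzV, Finset.card_erase_of_mem hv]
      omega
    have hmem' : ∀ x, x ∈ iso (insert s(v, z) C) ↔ x ≠ z ∧ x ≠ v ∧ x ∈ iso C := by
      intro x
      rw [hiso, Finset.mem_erase, Finset.mem_erase]
    have hloss := loss_iso hr hb hr3 h
    have hsvU : s(v, z) ∈ U := hinB z hz
    have hsvC : s(v, z) ∉ C := fun hh => (Finset.disjoint_left.1 h.hd hh) hsvU
    have hCc : (insert s(v, z) C).card = C.card + 1 := Finset.card_insert_of_notMem hsvC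
    refine Force.here ⟨?_, ?_⟩
    · refine ⟨?_, ?_, ?_, ?_, ?_, ?_, ?_, ?_, ?_, ?_, ?_, ?_, ?_⟩
      · -- hC
        rw [Finset.insert_subset_iff]
        exact ⟨h.hU hsvU, h.hC⟩
      · -- hU
        exact Finset.sdiff_subset.trans h.hU
      · -- hd
        rw [Finset.disjoint_left]
        intro e he heU
        rw [Finset.mem_sdiff] at heU
        rcases Finset.mem_insert.1 he with rfl | he
        · exact heU.2 (Finset.mem_image.2 ⟨z, hz, rfl⟩)
        · exact (Finset.disjoint_left.1 h.hd he) heU.1
      · -- hres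
        intro x y hxy hρxy
        rw [Finset.mem_sdiff]
        refine ⟨h.hres x y hxy hρxy, fun hh => ?_⟩
        obtain ⟨w, hw, hvw⟩ := Finset.mem_image.1 hh
        rw [Sym2.eq_iff] at hvw
        rcases hvw with ⟨h1, h2⟩ | ⟨h1, h2⟩
        · apply hBρ w hw
          rw [h1, h2]
          exact hρxy
        · apply hBρ w hw
          rw [h1, h2]
          exact hρ _ _ hρxy
      · -- hin
        intro x hx y hy hxy
        rw [hmem'] at hx hy
        rw [Finset.mem_sdiff]
        refine ⟨h.hin x hx.2.2 y hy.2.2 hxy, fun hh => ?_⟩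
        obtain ⟨w, hw, hvw⟩ := Finset.mem_image.1 hh
        rw [Sym2.eq_iff] at hvw
        rcases hvw with ⟨h1, _⟩ | ⟨h1, _⟩
        · exact hx.2.1 h1.symm
        · exact hy.2.1 h1.symm
      · -- hsp
        exact sp_step h.hC h.hsp hv hvz
      · -- hdg
        intro x
        rw [hdg]
        by_cases hx : x = v ∨ x = z
        · rw [if_pos hx]
          have h1 : dg C x = 0 := by
            have h2 : x ∈ iso C := by
              rcases hx with rfl | rfl
              · exact hv
              · exact hziso
            rw [iso, mem_filter] at h2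
            exact h2.2
          rw [h1]
        · rw [if_neg hx, add_zero]
          exact h.hdg x
      · -- hcard
        rw [hCc, hiso, hcard']
        have := h.hcard
        omega
      · -- hused
        rw [hls3, hCc, h.hused, hBb]
        ring
      · -- hN
        rw [hiso, hcard']
        omega
      · -- hbal
        obtain ⟨Z, hZ1, hZ2⟩ := h.hbal
        have hvZ : v ∉ Z := fun hh => hZ1 v hh hv
        refine ⟨insert v Z, ?_, ?_⟩
        · intro z' hz' hh
          rw [hmem'] at hh
          rcases Finset.mem_insert.1 hz' with rfl | hz'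
          · exact hh.2.1 rfl
          · exact hZ1 z' hz' hh.2.2
        · intro w hw u hu
          rw [hmem'] at hw hu
          have h1 := bal_step (V0 := (iso C).erase v) (B := B)
            (E := univ.filter fun y => ρ v y) (ls := loss U)
            (ex := fun u => (Z.filter fun z => ρ z u).card)
            (fun w hw u hu => hZ2 w (Finset.mem_of_mem_erase hw) u (Finset.mem_of_mem_erase hu))
            (fun y hy hyB hyE z hz => hBmin y (by
              rw [Finset.mem_sdiff, hAv, mem_filter]
              refine ⟨⟨hy, fun hh => hyE ?_⟩, hyB⟩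
              rw [mem_filter]
              exact ⟨mem_univ _, hh⟩) z hz)
            w (Finset.mem_erase.2 ⟨hw.2.1, hw.2.2⟩) u (Finset.mem_erase.2 ⟨hu.2.1, hu.2.2⟩)
          rw [hls1 w hw.2.1, hls1 u hu.2.1]
          have h2 : ((insert v Z).filter fun z => ρ z u).card =
              (Z.filter fun z => ρ z u).card +
                if u ∈ (univ.filter fun y => ρ v y) then 1 else 0 := by
            rw [Finset.filter_insert]
            by_cases hvu : ρ v u
            · rw [if_pos hvu, if_pos (by rw [mem_filter]; exact ⟨mem_univ _, hvu⟩),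
                Finset.card_insert_of_notMem (fun hh => hvZ (Finset.mem_of_mem_filter _ hh))]
            · rw [if_neg hvu, if_neg (by rw [mem_filter]; exact fun hh => hvu hh.2), add_zero]
          rw [h2]
          exact h1
      · -- hsum
        rw [hiso]
        have h1 := sum_step (V0 := iso C) (B := B) (ls := loss U) (v := v) (z := z) (r0 := r0)
          (b := b) (A := avg n b r0 (iso C).card) hv hz hBV hBb hbal h.hsum (by omega)
        have h2 : ∑ x ∈ ((iso C).erase v).erase z,
            (loss (U \ B.image fun y => s(v, y)) x : ℝ) =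
            ∑ x ∈ ((iso C).erase v).erase z,
              ((loss U x + if x ∈ B then 1 else 0 : ℕ) : ℝ) := by
          refine Finset.sum_congr rfl fun x hx => ?_
          rw [Finset.mem_erase, Finset.mem_erase] at hx
          rw [hls1 x hx.2.1]
        rw [h2, hcard']
        have h3 := avg_step (n := n) (b := b) (r0 := r0) (N := (iso C).card) (by omega) hNn
        have h4 : (((iso C).card - 2 : ℕ) : ℝ) = ((iso C).card : ℝ) - 2 := by
          rw [Nat.cast_sub (by omega)]
          norm_num
        rw [h4]
        linarith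
      · -- hloss
        intro x hx
        rw [hmem'] at hx
        by_cases hxv : x = v
        · rw [hxv, hls2, hBb]
          have := hloss v hv
          push_cast
          linarith
        · rw [hls1 x hxv]
          by_cases hxz : x = z
          · rw [hxz, if_pos hz]
            have h1 := hloss z hziso
            have h2 : (1 : ℝ) ≤ b := by exact_mod_cast hb
            push_cast
            linarith
          · have hxiso : x ∉ iso C := fun hh => hx ⟨hxz, hxv, hh⟩
            have hxB : x ∉ B := fun hh => hxiso (hBiso hh)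
            rw [if_neg hxB, add_zero]
            exact h.hloss x hxiso
    · rw [hiso, hcard']
      omega

end Pool.Agent.Helper40.WS
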