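import Pool.Agent.Helper40.WS.Defs

/-!
# Project WS, module LogStep: the function `avg`

`avg_step`: `log ((N-2)/(N-4)) ≥ 2/(N-2)` because `log y ≥ 1 - 1/y` (`Real.one_sub_inv_le_log_of_pos`
or `Real.add_one_le_exp`); `avg (N-2) - avg N = (b+2 r0+2)/2 * log ((N-2)/(N-4))`.
`avg_le_lam`: `(n-2)/(N-2) ≤ n/b` as `N - 2 ≥ b`, `b ≤ n`; `avg` is decreasing in `N`.
-/

set_option autoImplicit false

namespace Pool.Agent.Helper40.WS

theorem avg_start {n b r0 : ℕ} (hn : 3 ≤ n) : avg n b r0 n = 0 := by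
  unfold avg
  have hn' : (3 : ℝ) ≤ n := by exact_mod_cast hn
  have h : (n : ℝ) - 2 ≠ 0 := by
    have : (0 : ℝ) < (n : ℝ) - 2 := by linarith
    exact this.ne'
  rw [div_self h, Real.log_one, mul_zero]

theorem avg_step {n b r0 N : ℕ} (hN : 5 ≤ N) (hNn : N ≤ n) :
    ((N : ℝ) - 2) * avg n b r0 N + b + 2 * r0 + 1 ≤ ((N : ℝ) - 2) * avg n b r0 (N - 2) := by
  unfold avg
  have hN' : (5 : ℝ) ≤ N := by exact_mod_cast hN
  have hn' : (N : ℝ) ≤ n := by exact_mod_cast hNn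
  have hc : ((N - 2 : ℕ) : ℝ) = (N : ℝ) - 2 := by
    rw [Nat.cast_sub (by omega)]
    norm_num
  rw [hc]
  have h1 : (0 : ℝ) < (n : ℝ) - 2 := by linarith
  have h2 : (0 : ℝ) < (N : ℝ) - 2 := by linarith
  have h3 : (0 : ℝ) < (N : ℝ) - 2 - 2 := by linarith
  have h4 : Real.log (((n : ℝ) - 2) / ((N : ℝ) - 2 - 2)) =
      Real.log (((n : ℝ) - 2) / ((N : ℝ) - 2)) +
        Real.log (((N : ℝ) - 2) / ((N : ℝ) - 2 - 2)) := by
    rw [← Real.log_mul (by positivity) (by positivity)]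
    congr 1
    field_simp
  have h5 := Real.one_sub_inv_le_log_of_pos
    (show (0 : ℝ) < ((N : ℝ) - 2) / ((N : ℝ) - 2 - 2) by positivity)
  have h6 : 1 - (((N : ℝ) - 2) / ((N : ℝ) - 2 - 2))⁻¹ = 2 / ((N : ℝ) - 2) := by
    rw [inv_div]
    field_simp
    ring
  rw [h6] at h5
  rw [h4]
  have h7 : (2 : ℝ) ≤ ((N : ℝ) - 2) * Real.log (((N : ℝ) - 2) / ((N : ℝ) - 2 - 2)) := by
    have h8 := mul_le_mul_of_nonneg_left h5 h2.le
    rw [mul_div_cancel₀ _ h2.ne'] at h8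
    exact h8
  have h9 : (0 : ℝ) ≤ ((b : ℝ) + 2 * r0 + 2) / 2 := by positivity
  have h10 := mul_le_mul_of_nonneg_left h7 h9
  nlinarith

theorem avg_nonneg {n b r0 N : ℕ} (hN : 3 ≤ N) (hNn : N ≤ n) : 0 ≤ avg n b r0 N := by
  unfold avg
  have hN' : (3 : ℝ) ≤ N := by exact_mod_cast hN
  have hn' : (N : ℝ) ≤ n := by exact_mod_cast hNn
  refine mul_nonneg (by positivity) (Real.log_nonneg ?_)
  rw [le_div_iff₀ (by linarith)]
  linarith

theorem avg_le_lam {n b r0 N : ℕ} (hb : 1 ≤ b) (hN : b + 2 ≤ N) (hNn : N ≤ n) :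
    avg n b r0 N + r0 + 1 ≤ lam n b r0 := by
  unfold avg lam
  have hb' : (1 : ℝ) ≤ b := by exact_mod_cast hb
  have hN' : (b : ℝ) + 2 ≤ N := by exact_mod_cast hN
  have hn' : (N : ℝ) ≤ n := by exact_mod_cast hNn
  have h1 : (0 : ℝ) < (n : ℝ) - 2 := by linarith
  have h2 : (0 : ℝ) < (N : ℝ) - 2 := by linarith
  have h3 : Real.log (((n : ℝ) - 2) / ((N : ℝ) - 2)) ≤ Real.log ((n : ℝ) / b) := by
    refine Real.log_le_log (by positivity) ?_
    rw [div_le_div_iff₀ h2 (by linarith)]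
    nlinarith
  have h4 := mul_le_mul_of_nonneg_left h3 (show (0 : ℝ) ≤ ((b : ℝ) + 2 * r0 + 2) / 2 by positivity)
  linarith

end Pool.Agent.Helper40.WS
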