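import Pool.Agent.Helper40.WS.Defs

/-!
# Project WS, module Meet: counting pairs which meet a set

`board_meet`: induction on `A`.
`reserved_meet`: `T` is covered by the sets `{s(v, y) : ρ y v}`, `v ∈ A`
(`card_biUnion_le`).
-/

set_option autoImplicit false

namespace Pool.Agent.Helper40.WS

open Finset Pool.Agent.Helper72.WC

variable {n : ℕ}

/-- The number of the pairs which meet `A`. -/
theorem board_meet (A : Finset (Fin n)) :
    (((board n).filter fun e => ∃ v ∈ A, v ∈ e).card : ℝ) =
      A.card * n - (A.card : ℝ) ^ 2 / 2 - A.card / 2 := by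
  classical
  induction A using Finset.induction_on with
  | empty => simp
  | insert v A hv ih =>
    have h1 : ((board n).filter fun e => ∃ w ∈ insert v A, w ∈ e) =
        ((board n).filter fun e => ∃ w ∈ A, w ∈ e) ∪
          (univ \ insert v A).image (fun y => s(v, y)) := by
      ext e
      rw [mem_union, mem_filter, mem_filter, mem_image]
      constructor
      · rintro ⟨he, w, hw, hwe⟩
        by_cases hex : ∃ w ∈ A, w ∈ e
        · exact Or.inl ⟨he, hex⟩
        · right
          have hve : v ∈ e := by
            rcases mem_insert.1 hw with rfl | h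
            · exact hwe
            · exact absurd ⟨w, h, hwe⟩ hex
          obtain ⟨y, rfl⟩ := Sym2.mem_iff_exists.1 hve
          refine ⟨y, ?_, rfl⟩
          rw [mem_sdiff, mem_insert]
          refine ⟨mem_univ _, ?_⟩
          rintro (rfl | hy)
          · unfold board at he
            exact (mem_filter.1 he).2 (by simp)
          · exact hex ⟨y, hy, Sym2.mem_mk_right v y⟩
      · rintro (⟨he, w, hw, hwe⟩ | ⟨y, hy, rfl⟩)
        · exact ⟨he, w, mem_insert_of_mem hw, hwe⟩
        · rw [mem_sdiff, mem_insert] at hy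
          refine ⟨?_, v, mem_insert_self v A, Sym2.mem_mk_left v y⟩
          unfold board
          rw [mem_filter]
          refine ⟨mem_univ _, ?_⟩
          rw [Sym2.mk_isDiag_iff]
          exact fun h => hy.2 (Or.inl h.symm)
    have h2 : Disjoint ((board n).filter fun e => ∃ w ∈ A, w ∈ e)
        ((univ \ insert v A).image (fun y => s(v, y))) := by
      rw [disjoint_left]
      intro e he he'
      obtain ⟨-, w, hw, hwe⟩ := mem_filter.1 he
      obtain ⟨y, hy, rfl⟩ := mem_image.1 he'
      rw [mem_sdiff, mem_insert] at hy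
      rcases Sym2.mem_iff.1 hwe with rfl | rfl
      · exact hv hw
      · exact hy.2 (Or.inr hw)
    have h3 : ((univ \ insert v A).image (fun y => s(v, y))).card + (A.card + 1) = n := by
      rw [card_image_of_injective _ (fun y y' h => Sym2.congr_right.1 h),
        ← card_insert_of_notMem hv]
      have h4 := card_sdiff_add_card_eq_card (subset_univ (insert v A))
      rwa [card_univ, Fintype.card_fin] at h4
    have h5 : (((univ \ insert v A).image (fun y => s(v, y))).card : ℝ) = n - A.card - 1 := by
      have h6 : ((((univ \ insert v A).image (fun y => s(v, y))).card + (A.card + 1) : ℕ) : ℝ) =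
          (n : ℝ) := by exact_mod_cast h3
      push_cast at h6
      linarith
    rw [h1, card_union_of_disjoint h2, card_insert_of_notMem hv]
    push_cast
    rw [ih, h5]
    ring

theorem reserved_meet {r0 : ℕ} {ρ : Fin n → Fin n → Prop} [DecidableRel ρ]
    (hρ : ∀ x y, ρ x y → ρ y x) (hr : ∀ x, (univ.filter fun y => ρ y x).card ≤ r0)
    (A : Finset (Fin n)) {T : Finset (Sym2 (Fin n))} (hT : ∀ e ∈ T, ∃ x y, e = s(x, y) ∧ ρ x y)
    (hA : ∀ e ∈ T, ∃ v ∈ A, v ∈ e) : T.card ≤ r0 * A.card := by
  classical
  have h1 : T ⊆ A.biUnion fun v => (univ.filter fun y => ρ y v).image fun y => s(v, y) := by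
    intro e he
    obtain ⟨x, y, rfl, hxy⟩ := hT e he
    obtain ⟨v, hv, hve⟩ := hA _ he
    rw [mem_biUnion]
    refine ⟨v, hv, ?_⟩
    rw [mem_image]
    rcases Sym2.mem_iff.1 hve with rfl | rfl
    · exact ⟨y, mem_filter.2 ⟨mem_univ _, hρ _ _ hxy⟩, rfl⟩
    · exact ⟨x, mem_filter.2 ⟨mem_univ _, hxy⟩, Sym2.eq_swap⟩
  refine (card_le_card h1).trans (card_biUnion_le.trans ?_)
  calc ∑ v ∈ A, ((univ.filter fun y => ρ y v).image fun y => s(v, y)).card
      ≤ ∑ _v ∈ A, r0 := sum_le_sum fun v _ => card_image_le.trans (hr v)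
    _ = r0 * A.card := by rw [sum_const, smul_eq_mul, mul_comm]

end Pool.Agent.Helper40.WS
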