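import Mathlib

/-!
# Project WS, module Num: the numerical core

With `y = 1 / κ` and `2 δ = 1 - (2k-1) y - y² > 0`:
`1 - (k-1) y = (1 + y + y²)/2 + δ`, so
`f2 α := α (1 - (k-1) y) - y (1+y)/2 - α²/2 = -(1/2) (α - 1) (α - y (1+y)) + δ α`, at least `δ y` on
`[y (1+y), 1]`; and `f1 α := 1 - k y - (y/2) log κ - α/2` is at least `δ` for `α ≤ y (1+y)`, because
`f1 (y (1+y)) = (y/2) (κ - 2 - log κ) + δ` and `κ - 2 ≥ log κ` for `κ ≥ 13/4` (`κ > 3 + 1/κ` follows from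
`κ² > (2k-1) κ + 1 ≥ 3 κ + 1`; `log (13/4) ≤ 5/4` because `e^(5/4) ≥ 13/4`, and `log κ ≤ log κ0 + (κ - κ0)/κ0`).
The errors: `e (8 + 2 log κ) ≤ δ` and `4 e ≤ δ y`.
-/

set_option autoImplicit false

namespace Pool.Agent.Helper40.WS

theorem log_le_sub_two {κ : ℝ} (h : 13 / 4 ≤ κ) : Real.log κ ≤ κ - 2 := by
  have h1 : Real.log (13 / 4) ≤ 5 / 4 := by
    rw [Real.log_le_iff_le_exp (by norm_num)]
    have h2 := Real.quadratic_le_exp_of_nonneg (x := 5 / 8) (by norm_num)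
    have h3 : Real.exp (5 / 4) = Real.exp (5 / 8) * Real.exp (5 / 8) := by
      rw [← Real.exp_add]
      norm_num
    rw [h3]
    nlinarith
  have h4 : Real.log κ = Real.log (13 / 4) + Real.log (κ / (13 / 4)) := by
    rw [← Real.log_mul (by norm_num) (by positivity)]
    congr 1
    ring
  have h5 := Real.log_le_sub_one_of_pos (x := κ / (13 / 4)) (by positivity)
  rw [h4]
  linarith

/-- The two alternatives with an error term `e`. -/
theorem num_core {k : ℕ} (hk : 2 ≤ k) {κ : ℝ} (hκ : (2 * (k : ℝ) - 1) * κ + 1 < κ ^ 2)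
    (hκ0 : 0 < κ) : ∃ e > (0 : ℝ), e ≤ 1 ∧ ∀ α : ℝ, 0 ≤ α → α ≤ 1 →
      ((k : ℝ) / κ + 3 * e + ((1 / κ + 4 * e) / 2 * (Real.log κ + e) + 2 * e) + α / 2 ≤ 1) ∨
      ((1 / κ) * (1 + 1 / κ + e) / 2 + α ^ 2 / 2 ≤ α * (1 - 3 * e - ((k : ℝ) - 1) / κ)) := by
  have hk2 : (2 : ℝ) ≤ k := by exact_mod_cast hk
  have hκ3 : 13 / 4 ≤ κ := by
    by_contra hcon
    rw [not_le] at hcon
    nlinarith
  have hlog := log_le_sub_two hκ3
  have hl0 : 0 ≤ Real.log κ := Real.log_nonneg (by linarith)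
  obtain ⟨y, hy⟩ : ∃ y : ℝ, y = 1 / κ := ⟨_, rfl⟩
  have hy0 : 0 < y := by rw [hy]; positivity
  have hyκ : y * κ = 1 := by rw [hy]; field_simp
  have hy1 : y ≤ 1 := by nlinarith
  have hkκ : (k : ℝ) / κ = k * y := by rw [hy]; ring
  have hkκ' : ((k : ℝ) - 1) / κ = (k - 1) * y := by rw [hy]; ring
  rw [hkκ, hkκ', ← hy]
  generalize Real.log κ = L at *
  obtain ⟨δ, hδ⟩ : ∃ δ : ℝ, δ = (1 - (2 * (k : ℝ) - 1) * y - y ^ 2) / 2 := ⟨_, rfl⟩
  have hδ0 : 0 < δ := by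
    have h1 : y ^ 2 * ((2 * (k : ℝ) - 1) * κ + 1) < y ^ 2 * κ ^ 2 :=
      mul_lt_mul_of_pos_left hκ (by positivity)
    have h2 : y ^ 2 * κ ^ 2 = 1 := by
      rw [← mul_pow, hyκ, one_pow]
    have h3 : y ^ 2 * ((2 * (k : ℝ) - 1) * κ + 1) = (2 * (k : ℝ) - 1) * y + y ^ 2 := by
      linear_combination ((2 * (k : ℝ) - 1) * y) * hyκ
    rw [hδ]
    linarith
  obtain ⟨e, he⟩ : ∃ e : ℝ, e = min 1 (min (δ / (8 + 2 * L)) (δ * y / 4)) := ⟨_, rfl⟩
  have h8 : 0 < 8 + 2 * L := by linarith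
  have he1 : e ≤ 1 := by rw [he]; exact min_le_left _ _
  have he2 : e * (8 + 2 * L) ≤ δ := by
    have h1 : e ≤ δ / (8 + 2 * L) := by
      rw [he]
      exact (min_le_right _ _).trans (min_le_left _ _)
    rwa [le_div_iff₀ h8] at h1
  have he3 : 4 * e ≤ δ * y := by
    have h1 : e ≤ δ * y / 4 := by
      rw [he]
      exact (min_le_right _ _).trans (min_le_right _ _)
    linarith
  have he0 : 0 < e := by
    rw [he]
    refine lt_min one_pos (lt_min (by positivity) (by positivity))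
  refine ⟨e, he0, he1, fun α hα0 hα1 => ?_⟩
  rcases le_total α (y * (1 + y)) with h | h
  · left
    -- main part
    have h1 : (k : ℝ) * y + y / 2 * L + α / 2 + δ ≤ 1 := by
      have h2 : y * L ≤ 1 - 2 * y := by
        have h3 : y * L ≤ y * (κ - 2) := mul_le_mul_of_nonneg_left hlog hy0.le
        have h4 : y * (κ - 2) = 1 - 2 * y := by linear_combination hyκ
        linarith
      rw [hδ]
      nlinarith
    have h5 : 3 * e + (2 * e * L + 2 * e * e + y / 2 * e) + 2 * e ≤ e * (8 + 2 * L) := by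
      nlinarith [mul_le_mul_of_nonneg_left he1 he0.le, mul_le_mul_of_nonneg_right hy1 he0.le]
    have h6 : (k : ℝ) * y + 3 * e + ((y + 4 * e) / 2 * (L + e) + 2 * e) + α / 2 =
        ((k : ℝ) * y + y / 2 * L + α / 2) +
          (3 * e + (2 * e * L + 2 * e * e + y / 2 * e) + 2 * e) := by ring
    rw [h6]
    linarith
  · right
    have h1 : α * (1 - ((k : ℝ) - 1) * y) - y * (1 + y) / 2 - α ^ 2 / 2 =
        1 / 2 * ((1 - α) * (α - y * (1 + y))) + δ * α := by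
      rw [hδ]
      ring
    have h2 : 0 ≤ (1 - α) * (α - y * (1 + y)) := mul_nonneg (by linarith) (by linarith)
    have h3 : δ * y ≤ δ * α := mul_le_mul_of_nonneg_left (by nlinarith) hδ0.le
    have h4 : y * e ≤ e := by nlinarith
    have h5 : e * α ≤ e := by nlinarith
    nlinarith

end Pool.Agent.Helper40.WS
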