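import Pool.Agent.Helper40.WS.Defs
import Pool.Agent.Helper40.WS.Num

/-!
# Project WS, module NumC: the numerical condition for large `n`

`e` and the alternatives from `num_core`; `α = a / n`, multiply by `n` resp. `n²`; with `b = ⌊n/κ⌋`:
`b ≤ n / κ`, `log (n/b) ≤ log κ + e` for large `n` (`n / b ≤ κ exp e` since `b + 1 > n/κ`), `log (n/b) ≥ 0`;
`r0, s ≤ e n`, `1 ≤ e n` (so `1/2 ≤ e n`, `2 ≤ 2 e n`), `k - 1 ≥ 0`.
-/

set_option autoImplicit false

namespace Pool.Agent.Helper40.WS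

theorem num_cond {k : ℕ} (hk : 2 ≤ k) {κ : ℝ} (hκ : (2 * (k : ℝ) - 1) * κ + 1 < κ ^ 2)
    (hκ0 : 0 < κ) : ∃ e > (0 : ℝ), ∃ n0 : ℕ, ∀ n ≥ n0, ∀ r0 s : ℕ, (r0 : ℝ) ≤ e * n →
      (s : ℝ) ≤ e * n → NumCond n ⌊(n : ℝ) / κ⌋₊ k r0 s := by
  obtain ⟨e, he, he1, hcore⟩ := num_core hk hκ hκ0
  have hk' : (2 : ℝ) ≤ k := by exact_mod_cast hk
  have hκ1 : 1 < κ := by
    by_contra hcon
    push Not at hcon
    nlinarith
  have hexp : Real.exp (-e) < 1 := by
    rw [← Real.exp_zero]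
    exact Real.exp_lt_exp.mpr (by linarith)
  have hc : 0 < 1 - Real.exp (-e) := by linarith
  obtain ⟨n0, hn0⟩ := exists_nat_ge (1 / e + κ / (1 - Real.exp (-e)))
  have hp1 : 0 < 1 / e := by positivity
  have hp2 : 0 < κ / (1 - Real.exp (-e)) := by positivity
  refine ⟨e, he, max n0 1, fun n hn r0 s hr hs a ha0 han => ?_⟩
  have hnn0 : (n0 : ℝ) ≤ n := by exact_mod_cast (le_max_left _ _).trans hn
  have hn1 : (1 : ℝ) ≤ n := by exact_mod_cast (le_max_right _ _).trans hn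
  have hnpos : (0 : ℝ) < n := by linarith
  have h1 : 1 ≤ e * n := by
    have h : 1 / e ≤ n := by linarith
    rw [div_le_iff₀ he] at h
    linarith
  have h2 : κ ≤ n * (1 - Real.exp (-e)) := by
    have h : κ / (1 - Real.exp (-e)) ≤ n := by linarith
    rwa [div_le_iff₀ hc] at h
  obtain ⟨b, hb⟩ : ∃ b : ℕ, b = ⌊(n : ℝ) / κ⌋₊ := ⟨_, rfl⟩
  rw [← hb]
  have hb1 : (b : ℝ) ≤ n / κ := by
    rw [hb]
    exact Nat.floor_le (by positivity)
  have hb2 : (n : ℝ) / κ < b + 1 := by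
    rw [hb]
    exact Nat.lt_floor_add_one _
  have h3 : (n : ℝ) / κ * Real.exp (-e) ≤ b := by
    have h : 1 ≤ (n : ℝ) / κ * (1 - Real.exp (-e)) := by
      rw [div_mul_eq_mul_div, le_div_iff₀ hκ0]
      linarith
    linarith
  have hbpos : (0 : ℝ) < b := lt_of_lt_of_le (by positivity) h3
  have hbn : (b : ℝ) ≤ n := hb1.trans (div_le_self hnpos.le hκ1.le)
  have hlog : Real.log ((n : ℝ) / b) ≤ Real.log κ + e := by
    have h : (n : ℝ) / b ≤ κ * Real.exp e := by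
      rw [div_le_iff₀ hbpos]
      have h4 := mul_le_mul_of_nonneg_left h3 (by positivity : (0 : ℝ) ≤ κ * Real.exp e)
      have h5 : κ * Real.exp e * ((n : ℝ) / κ * Real.exp (-e)) = n := by
        have h6 : Real.exp e * Real.exp (-e) = 1 := by rw [← Real.exp_add, add_neg_cancel, Real.exp_zero]
        calc κ * Real.exp e * ((n : ℝ) / κ * Real.exp (-e)) =
            (κ * ((n : ℝ) / κ)) * (Real.exp e * Real.exp (-e)) := by ring
          _ = n := by rw [h6, mul_one, mul_div_cancel₀ _ hκ0.ne']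
      rw [h5] at h4
      exact h4
    calc Real.log ((n : ℝ) / b) ≤ Real.log (κ * Real.exp e) :=
          Real.log_le_log (by positivity) h
      _ = _ := by rw [Real.log_mul hκ0.ne' (Real.exp_pos e).ne', Real.log_exp]
  have hlog0 : 0 ≤ Real.log ((n : ℝ) / b) := Real.log_nonneg (by
    rw [one_le_div hbpos]
    exact hbn)
  have hnk : (n : ℝ) / κ = n * (1 / κ) := by ring
  obtain ⟨α, hα⟩ : ∃ α : ℝ, α = a / n := ⟨_, rfl⟩
  have haα : a = n * α := by rw [hα, mul_div_cancel₀ _ hnpos.ne']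
  have hα0 : 0 ≤ α := by rw [hα]; positivity
  have hα1 : α ≤ 1 := by rw [hα, div_le_one hnpos]; exact han
  have hr0 : (0 : ℝ) ≤ r0 := Nat.cast_nonneg _
  have hs0 : (0 : ℝ) ≤ s := Nat.cast_nonneg _
  rcases hcore α hα0 hα1 with h | h
  · left
    have hlam : lam n b r0 ≤ n * ((1 / κ + 4 * e) / 2 * (Real.log κ + e) + 2 * e) := by
      unfold lam
      have h5 : ((b : ℝ) + 2 * r0 + 2) / 2 ≤ n * ((1 / κ + 4 * e) / 2) := by
        rw [hnk] at hb1
        linarith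
      have h6 := mul_le_mul h5 hlog hlog0 (by positivity)
      linarith
    have h7 : (b : ℝ) * k ≤ n * ((k : ℝ) / κ) := by
      have h8 := mul_le_mul_of_nonneg_right hb1 (by linarith : (0 : ℝ) ≤ k)
      have h9 : (n : ℝ) / κ * k = n * ((k : ℝ) / κ) := by ring
      linarith
    have h8 := mul_le_mul_of_nonneg_left h hnpos.le
    have h9 : (n : ℝ) * ((k : ℝ) / κ + 3 * e + ((1 / κ + 4 * e) / 2 * (Real.log κ + e) + 2 * e) +
        α / 2) = n * ((k : ℝ) / κ) + 3 * (e * n) +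
        n * ((1 / κ + 4 * e) / 2 * (Real.log κ + e) + 2 * e) + n * α / 2 := by ring
    rw [h9, mul_one] at h8
    rw [haα]
    linarith
  · right
    have h8 := mul_le_mul_of_nonneg_left h (by positivity : (0 : ℝ) ≤ (n : ℝ) ^ 2)
    have h9 : (b : ℝ) * (n + b + r0) / 2 ≤ (n : ℝ) ^ 2 * ((1 / κ) * (1 + 1 / κ + e) / 2) := by
      have h10 : (n : ℝ) + b + r0 ≤ n * (1 + 1 / κ + e) := by
        rw [hnk] at hb1
        linarith
      have h11 := mul_le_mul hb1 h10 (by positivity) (by positivity)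
      have h12 : (n : ℝ) / κ * (n * (1 + 1 / κ + e)) =
          (n : ℝ) ^ 2 * ((1 / κ) * (1 + 1 / κ + e)) := by ring
      linarith
    have h10 : a * ((n : ℝ) * (1 - 3 * e - ((k : ℝ) - 1) / κ)) ≤
        a * ((n : ℝ) - 1 / 2 - r0 - s - b * ((k : ℝ) - 1)) := by
      refine mul_le_mul_of_nonneg_left ?_ ha0
      have h11 := mul_le_mul_of_nonneg_right hb1 (by linarith : (0 : ℝ) ≤ (k : ℝ) - 1)
      have h12 : (n : ℝ) / κ * ((k : ℝ) - 1) = n * (((k : ℝ) - 1) / κ) := by ring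
      linarith
    refine le_trans ?_ h10
    have h13 : (n : ℝ) ^ 2 * ((1 / κ) * (1 + 1 / κ + e) / 2 + α ^ 2 / 2) =
        (n : ℝ) ^ 2 * ((1 / κ) * (1 + 1 / κ + e) / 2) + a ^ 2 / 2 := by
      rw [haα]; ring
    have h14 : (n : ℝ) ^ 2 * (α * (1 - 3 * e - ((k : ℝ) - 1) / κ)) =
        a * ((n : ℝ) * (1 - 3 * e - ((k : ℝ) - 1) / κ)) := by
      rw [haα]; ring
    rw [h13, h14] at h8
    linarith

end Pool.Agent.Helper40.WS
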