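import Pool.Agent.Helper40.WS.Sat
import Pool.Agent.Helper46.WC.Graph1
import Pool.Agent.Helper92.WC.Graph2

/-!
# Project WS, module Round1: one round of phase 1

`v ∈ W`, `dg C v < k`. Of the pairs of `E v ∩ U` leave out those whose other end `y` is
saturated (`K ≤ dg C y`, at most `s1` by `sat_card`) or in `ball C l v` (at most `(K+1)^l` by `ball_card`):
at least `b (k - dg C v) ≥ b` are left; offer `b` of them (`Force.play`, `Force.here`); Client picks
`s(v, y)`: `sp_insert` (Helper92/WC/Graph2.lean), degrees of `v` and `y` grow by one.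
-/

set_option autoImplicit false

namespace Pool.Agent.Helper40.WS

open Finset Pool.Agent.Helper72.WC

variable {n : ℕ}

private theorem round1_nb {C : Finset (Sym2 (Fin n))} {v y : Fin n} (x : Fin n) :
    nb (insert s(v, y) C) x =
      if x = v then insert y (nb C x) else if x = y then insert v (nb C x) else nb C x := by
  ext z
  have h1 : z ∈ nb (insert s(v, y) C) x ↔ s(x, z) = s(v, y) ∨ s(x, z) ∈ C := by
    simp [nb]
  have h2 : ∀ w, z ∈ insert w (nb C x) ↔ z = w ∨ s(x, z) ∈ C := by
    intro w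
    simp [nb]
  have h3 : z ∈ nb C x ↔ s(x, z) ∈ C := by simp [nb]
  rw [h1, Sym2.eq_iff]
  by_cases hx : x = v
  · rw [if_pos hx, h2]
    constructor
    · rintro ((⟨-, h⟩ | ⟨ha, hb⟩) | h)
      · exact Or.inl h
      · left
        rw [hb, ← hx, ha]
      · exact Or.inr h
    · rintro (h | h)
      · exact Or.inl (Or.inl ⟨hx, h⟩)
      · exact Or.inr h
  · rw [if_neg hx]
    by_cases hy : x = y
    · rw [if_pos hy, h2]
      constructor
      · rintro ((⟨ha, -⟩ | ⟨-, h⟩) | h)
        · exact absurd ha hx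
        · exact Or.inl h
        · exact Or.inr h
      · rintro (h | h)
        · exact Or.inl (Or.inr ⟨hy, h⟩)
        · exact Or.inr h
    · rw [if_neg hy, h3]
      constructor
      · rintro ((⟨ha, -⟩ | ⟨ha, -⟩) | h)
        · exact absurd ha hx
        · exact absurd ha hy
        · exact h
      · exact Or.inr

private theorem round1_dg {C : Finset (Sym2 (Fin n))} {v y : Fin n} (hvy : v ≠ y)
    (he : s(v, y) ∉ C) (x : Fin n) :
    dg (insert s(v, y) C) x = dg C x + if x = v ∨ x = y then 1 else 0 := by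
  unfold dg
  rw [round1_nb]
  by_cases hx : x = v
  · subst hx
    rw [if_pos rfl, if_pos (Or.inl rfl), Finset.card_insert_of_notMem]
    simpa [nb] using he
  · rw [if_neg hx]
    by_cases hy : x = y
    · subst hy
      rw [if_pos rfl, if_pos (Or.inr rfl), Finset.card_insert_of_notMem]
      rw [Sym2.eq_swap] at he
      simpa [nb] using he
    · rw [if_neg hy, if_neg (by tauto), Nat.add_zero]

private theorem round1_free {b k K l s s1 : ℕ} {ρ : Fin n → Fin n → Prop} (hb : 0 < b)
    (hkK : k ≤ K) (hs1 : n ^ 2 ≤ s1 * (b * K)) (hs : s1 + (K + 1) ^ l ≤ s)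
    {E : Fin n → Finset (Sym2 (Fin n))} {W : Finset (Fin n)} {U C : Finset (Sym2 (Fin n))}
    (h : Inv1 b k K l s ρ E W U C) {v : Fin n} (hv : v ∈ W) (hvk : dg C v < k) :
    ∃ B : Finset (Sym2 (Fin n)), B ⊆ E v ∩ U ∧ B.card = b ∧
      ∀ e ∈ B, ∃ y, e = s(v, y) ∧ dg C y < K ∧ y ∉ ball C l v := by
  classical
  have h1 : (univ.filter fun x => K ≤ dg C x).card ≤ s1 :=
    sat_card hb h.hC h.hcount hs1 (by omega)
  have h2 : (ball C l v).card ≤ (K + 1) ^ l := ball_card h.hup l v
  let R : Finset (Sym2 (Fin n)) :=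
    ((univ.filter fun x => K ≤ dg C x) ∪ ball C l v).image fun y => s(v, y)
  have h3 : R.card ≤ s :=
    Finset.card_image_le.trans ((Finset.card_union_le _ _).trans (by omega))
  have h4 := h.hown v hv
  have h5 : b ≤ b * (k - dg C v) := Nat.le_mul_of_pos_right b (by omega)
  have h6 : b ≤ ((E v ∩ U) \ R).card := by
    have := Finset.le_card_sdiff R (E v ∩ U)
    omega
  obtain ⟨B, hB, hBb⟩ := Finset.exists_subset_card_eq h6
  refine ⟨B, hB.trans Finset.sdiff_subset, hBb, fun e he => ?_⟩
  have h7 := Finset.mem_sdiff.1 (hB he)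
  have h8 : v ∈ e := h.hE v e (Finset.mem_inter.1 h7.1).1
  obtain ⟨y, rfl⟩ := Sym2.mem_iff_exists.1 h8
  have h9 : y ∉ (univ.filter fun x => K ≤ dg C x) ∪ ball C l v := fun hy =>
    h7.2 (Finset.mem_image_of_mem _ hy)
  rw [Finset.mem_union, Finset.mem_filter, not_or] at h9
  refine ⟨y, rfl, ?_, h9.2⟩
  by_contra hc
  exact h9.1 ⟨Finset.mem_univ _, not_lt.1 hc⟩

theorem round1 {b k K l s s1 : ℕ} {ρ : Fin n → Fin n → Prop} (hb : 0 < b) (hkK : k ≤ K)
    (hs1 : n ^ 2 ≤ s1 * (b * K)) (hs : s1 + (K + 1) ^ l ≤ s)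
    {E : Fin n → Finset (Sym2 (Fin n))} {W : Finset (Fin n)} {U C : Finset (Sym2 (Fin n))}
    (h : Inv1 b k K l s ρ E W U C) {v : Fin n} (hv : v ∈ W) (hvk : dg C v < k) :
    Force b (fun U' C' => Inv1 b k K l s ρ E W U' C' ∧ (∀ x, dg C x ≤ dg C' x) ∧
      dg C' v = dg C v + 1) U C := by
  classical
  obtain ⟨B, hB, hBb, hBy⟩ := round1_free hb hkK hs1 hs h hv hvk
  refine Force.play B (hB.trans Finset.inter_subset_right) hBb fun e he => Force.here ?_
  obtain ⟨y, rfl, hyK, hyb⟩ := hBy e he
  have heE : s(v, y) ∈ E v := (Finset.mem_inter.1 (hB he)).1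
  have heU : s(v, y) ∈ U := (Finset.mem_inter.1 (hB he)).2
  have heC : s(v, y) ∉ C := fun hc => Finset.disjoint_left.1 h.hd hc heU
  have hvy : v ≠ y := by
    rintro rfl
    have h1 := h.hU heU
    unfold board at h1
    rw [Finset.mem_filter] at h1
    exact h1.2 (Sym2.mk_isDiag_iff.2 rfl)
  have hdeg := round1_dg hvy heC
  have hmono : ∀ x, dg C x ≤ dg (insert s(v, y) C) x := fun x => by
    rw [hdeg]
    exact Nat.le_add_right _ _
  have hv1 : dg (insert s(v, y) C) v = dg C v + 1 := by
    rw [hdeg, if_pos (Or.inl rfl)]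
  refine ⟨?_, hmono, hv1⟩
  refine ⟨?_, ?_, ?_, ?_, ?_, ?_, ?_, h.hE, h.hEρ, h.hdis, ?_, ?_⟩
  · exact Finset.insert_subset (h.hU heU) h.hC
  · exact Finset.sdiff_subset.trans h.hU
  · rw [Finset.disjoint_insert_left]
    exact ⟨fun hc => (Finset.mem_sdiff.1 hc).2 he,
      Finset.disjoint_of_subset_right Finset.sdiff_subset h.hd⟩
  · intro a c hac hρ
    rw [Finset.mem_sdiff]
    exact ⟨h.hres a c hac hρ, fun hc => h.hEρ v a c hρ (Finset.mem_inter.1 (hB hc)).1⟩
  · exact sp_insert h.hC h.hsp hyb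
  · intro x
    rw [hdeg]
    have h1 := h.hup x
    split_ifs with hx
    · rcases hx with rfl | rfl
      · omega
      · omega
    · omega
  · rw [Finset.card_insert_of_notMem heC,
      Finset.card_sdiff_of_subset (hB.trans Finset.inter_subset_right), hBb, Nat.mul_add]
    have h1 := Finset.card_le_card (hB.trans Finset.inter_subset_right)
    have h2 := h.hcount
    omega
  · intro w hw
    have h1 := h.hown w hw
    by_cases hwv : w = v
    · subst hwv
      have h2 : E w ∩ (U \ B) = (E w ∩ U) \ B := by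
        ext e
        simp only [Finset.mem_inter, Finset.mem_sdiff]
        tauto
      rw [h2, Finset.card_sdiff_of_subset hB, hBb, hv1]
      obtain ⟨t, ht⟩ : ∃ t, k - dg C w = t + 1 := ⟨k - dg C w - 1, by omega⟩
      have h3 : k - (dg C w + 1) = t := by omega
      rw [ht, Nat.mul_add] at h1
      rw [h3]
      omega
    · have h2 : E w ∩ (U \ B) = E w ∩ U := by
        ext e
        simp only [Finset.mem_inter, Finset.mem_sdiff]
        constructor
        · tauto
        · rintro ⟨h3, h4⟩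
          exact ⟨h3, h4, fun hc => Finset.disjoint_left.1 (h.hdis w v hwv) h3
            (Finset.mem_inter.1 (hB hc)).1⟩
      rw [h2]
      refine le_trans ?_ h1
      exact Nat.add_le_add_right (Nat.mul_le_mul_left b (Nat.sub_le_sub_left (hmono w) k)) s
  · intro w hw
    exact (h.hlo w hw).trans (hmono w)

end Pool.Agent.Helper40.WS
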