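import Pool.Agent.Helper40.WS.Defs

/-!
# Project WS, module Sat: the number of the saturated vertices

`K * #{x : K ≤ dg C x} ≤ ∑ dg ≤ 2 |C|` (every pair of the board has two ends) and
`b |C| ≤ |board| ≤ n² / 2`, so `b K # ≤ n² ≤ s1 b K`.
-/

set_option autoImplicit false

namespace Pool.Agent.Helper40.WS

open Finset Pool.Agent.Helper72.WC

variable {n : ℕ}

private theorem Sat_mem (C : Finset (Sym2 (Fin n))) (x y : Fin n) :
    y ∈ nb C x ↔ s(x, y) ∈ C := by
  rw [nb, mem_filter]
  exact ⟨fun h => h.2, fun h => ⟨mem_univ _, h⟩⟩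

private theorem Sat_sum (C : Finset (Sym2 (Fin n))) : ∑ x, dg C x ≤ 2 * C.card := by
  classical
  set P := ((univ : Finset (Fin n)).sigma fun v => nb C v) with hP
  have hPc : P.card = ∑ x, dg C x := by
    rw [hP, card_sigma]
    rfl
  have h3 : (P.image fun p => s(p.1, p.2)) ⊆ C := by
    intro e he
    rw [mem_image] at he
    obtain ⟨p, hp, rfl⟩ := he
    rw [hP, mem_sigma, Sat_mem] at hp
    exact hp.2
  have h4 : P.card ≤ 2 * (P.image fun p => s(p.1, p.2)).card := by
    refine card_le_mul_card_image _ _ fun e he => ?_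
    induction e using Sym2.ind with
    | _ u w =>
      have h5 : (P.filter fun p => s(p.1, p.2) = s(u, w)) ⊆ {⟨u, w⟩, ⟨w, u⟩} := by
        rintro ⟨a, b⟩ hp
        rw [mem_filter] at hp
        have h6 := hp.2
        rw [Sym2.eq_iff] at h6
        rw [mem_insert, mem_singleton]
        rcases h6 with ⟨h7, h8⟩ | ⟨h7, h8⟩
        · left; simp only at h7 h8; subst h7; subst h8; rfl
        · right; simp only at h7 h8; subst h7; subst h8; rfl
      exact (card_le_card h5).trans card_le_two
  rw [← hPc]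
  exact h4.trans (Nat.mul_le_mul_left 2 (card_le_card h3))

private theorem Sat_board : 2 * (board n).card ≤ n * n := by
  have h1 : (board n).card = n.choose 2 := by
    have h2 := Sym2.card_subtype_not_diag (α := Fin n)
    rw [Fintype.card_fin, Fintype.card_subtype] at h2
    rw [← h2, board]
  rw [h1, Nat.choose_two_right]
  have h2 := Nat.div_mul_le_self (n * (n - 1)) 2
  have h3 : n * (n - 1) ≤ n * n := Nat.mul_le_mul_left _ (Nat.sub_le _ _)
  omega

theorem sat_card {b K s1 : ℕ} {C U : Finset (Sym2 (Fin n))} (hb : 0 < b) (hC : C ⊆ board n)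
    (hcount : U.card + b * C.card ≤ (board n).card) (hs1 : n ^ 2 ≤ s1 * (b * K)) (hK : 0 < K) :
    (univ.filter fun x => K ≤ dg C x).card ≤ s1 := by
  set T := univ.filter fun x => K ≤ dg C x with hT
  have h1 : T.card * K ≤ 2 * C.card := by
    calc T.card * K = ∑ _x ∈ T, K := by rw [sum_const, smul_eq_mul]
      _ ≤ ∑ x ∈ T, dg C x := sum_le_sum fun x hx => (mem_filter.1 hx).2
      _ ≤ ∑ x, dg C x := sum_le_sum_of_subset (subset_univ _)
      _ ≤ 2 * C.card := Sat_sum C
  have h2 : 2 * (b * C.card) ≤ n ^ 2 := by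
    have := Sat_board (n := n)
    rw [sq]
    omega
  have h3 : T.card * (b * K) ≤ s1 * (b * K) := by
    calc T.card * (b * K) = b * (T.card * K) := by ring
      _ ≤ b * (2 * C.card) := Nat.mul_le_mul_left b h1
      _ = 2 * (b * C.card) := by ring
      _ ≤ n ^ 2 := h2
      _ ≤ s1 * (b * K) := hs1
  exact Nat.le_of_mul_le_mul_right h3 (Nat.mul_pos hb hK)

end Pool.Agent.Helper40.WS
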