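import Pool.Agent.Helper40.WS.Defs
import Pool.Agent.Helper40.WS.Bal
import Pool.Agent.Helper40.WS.LogStep
import Pool.Agent.Helper92.WC.Graph2

/-!
# Project WS, module Step0: one round of phase 0 (bookkeeping)

`v ∈ iso C`, `B ⊆ iso C` without `v`, no pair `s(v, y)`, `y ∈ B`, reserved. The pairs `s(v, y)`,
`y ∈ B`, are offered, Client picks `s(v, z)`. Then `iso` loses `v` and `z` only, the loss of every
`y ∈ B` grows by one, the loss of `v` by `b`, all others are unchanged.
-/

set_option autoImplicit false

namespace Pool.Agent.Helper40.WS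

open Finset Pool.Agent.Helper72.WC

variable {n : ℕ}

private theorem Step0_mem_nb {C : Finset (Sym2 (Fin n))} {x y : Fin n} :
    y ∈ nb C x ↔ s(x, y) ∈ C := by
  simp [nb]

private theorem Step0_nb_iso {C : Finset (Sym2 (Fin n))} {v : Fin n} (hv : v ∈ iso C) :
    nb C v = ∅ := by
  rw [iso, mem_filter] at hv
  exact Finset.card_eq_zero.1 hv.2

private theorem Step0_inj (v : Fin n) : Function.Injective fun y : Fin n => s(v, y) := by
  intro y y' h
  have h1 : s(v, y) = s(v, y') := h
  rw [Sym2.eq_iff] at h1
  rcases h1 with ⟨_, h2⟩ | ⟨h2, h3⟩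
  · exact h2
  · rw [h3, h2]

theorem iso_step {C : Finset (Sym2 (Fin n))} {v z : Fin n} (hv : v ∈ iso C) (hz : z ∈ iso C)
    (hvz : v ≠ z) : iso (insert s(v, z) C) = ((iso C).erase v).erase z ∧
      (∀ x, dg (insert s(v, z) C) x = dg C x + if x = v ∨ x = z then 1 else 0) := by
  have hdg : ∀ x, dg (insert s(v, z) C) x = dg C x + if x = v ∨ x = z then 1 else 0 := by
    intro x
    by_cases h1 : x = v
    · rw [h1, if_pos (Or.inl rfl)]
      have e : nb (insert s(v, z) C) v = insert z (nb C v) := by
        ext y
        rw [Step0_mem_nb, Finset.mem_insert, Finset.mem_insert, Step0_mem_nb]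
        constructor
        · rintro (h | h)
          · exact Or.inl (Step0_inj v h)
          · exact Or.inr h
        · rintro (rfl | h)
          · exact Or.inl rfl
          · exact Or.inr h
      unfold dg
      rw [e, Step0_nb_iso hv, Finset.card_empty, zero_add]
      rfl
    · by_cases h2 : x = z
      · rw [h2, if_pos (Or.inr rfl)]
        have e : nb (insert s(v, z) C) z = insert v (nb C z) := by
          ext y
          rw [Step0_mem_nb, Finset.mem_insert, Finset.mem_insert, Step0_mem_nb, Sym2.eq_swap (a := v)]
          constructor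
          · rintro (h | h)
            · exact Or.inl (Step0_inj z h)
            · exact Or.inr h
          · rintro (rfl | h)
            · exact Or.inl rfl
            · exact Or.inr h
        unfold dg
        rw [e, Step0_nb_iso hz, Finset.card_empty, zero_add]
        rfl
      · rw [if_neg (by tauto), add_zero]
        unfold dg
        congr 1
        ext y
        rw [Step0_mem_nb, Finset.mem_insert, Step0_mem_nb]
        constructor
        · rintro (h | h)
          · rw [Sym2.eq_iff] at h
            rcases h with ⟨h, _⟩ | ⟨h, _⟩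
            · exact absurd h h1
            · exact absurd h h2
          · exact h
        · exact Or.inr
  refine ⟨?_, hdg⟩
  ext x
  rw [Finset.mem_erase, Finset.mem_erase]
  unfold iso
  rw [mem_filter, mem_filter, hdg]
  constructor
  · rintro ⟨h0, h1⟩
    by_cases h2 : x = v ∨ x = z
    · rw [if_pos h2] at h1
      omega
    · rw [if_neg h2, add_zero] at h1
      push Not at h2
      exact ⟨h2.2, h2.1, h0, h1⟩
  · rintro ⟨h1, h2, h0, h3⟩
    refine ⟨h0, ?_⟩
    rw [if_neg (by tauto), h3]

theorem loss_step {U C : Finset (Sym2 (Fin n))} {v : Fin n} {B : Finset (Fin n)}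
    (hU : U ⊆ board n) (hin : ∀ y ∈ B, s(v, y) ∈ U) (hvB : v ∉ B) :
    (∀ x, x ≠ v → loss (U \ B.image fun y => s(v, y)) x = loss U x + if x ∈ B then 1 else 0) ∧
      loss (U \ B.image fun y => s(v, y)) v = loss U v + B.card ∧
      (board n \ (U \ B.image fun y => s(v, y))).card = (board n \ U).card + B.card := by
  classical
  obtain ⟨P, hP⟩ : ∃ P : Finset (Sym2 (Fin n)), P = B.image fun y => s(v, y) := ⟨_, rfl⟩
  rw [← hP]
  have hPU : P ⊆ U := by
    rw [hP]
    intro e he
    obtain ⟨y, hy, rfl⟩ := Finset.mem_image.1 he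
    exact hin y hy
  have hPc : P.card = B.card := by
    rw [hP]
    exact Finset.card_image_of_injective _ (Step0_inj v)
  have hun : board n \ (U \ P) = (board n \ U) ∪ P := by
    ext e
    simp only [Finset.mem_sdiff, Finset.mem_union]
    constructor
    · rintro ⟨h1, h2⟩
      by_cases h3 : e ∈ P
      · exact Or.inr h3
      · exact Or.inl ⟨h1, fun h4 => h2 ⟨h4, h3⟩⟩
    · rintro (⟨h1, h2⟩ | h1)
      · exact ⟨h1, fun h3 => h2 h3.1⟩
      · exact ⟨hU (hPU h1), fun h3 => h3.2 h1⟩
  have hdj : Disjoint (board n \ U) P := by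
    rw [Finset.disjoint_left]
    intro e he hp
    exact (Finset.mem_sdiff.1 he).2 (hPU hp)
  have hl : ∀ x, loss (U \ P) x = loss U x + (P.filter fun e => x ∈ e).card := by
    intro x
    unfold loss
    rw [hun, Finset.filter_union, Finset.card_union_of_disjoint
      (Finset.disjoint_filter_filter hdj)]
  refine ⟨fun x hx => ?_, ?_, ?_⟩
  · rw [hl]
    congr 1
    by_cases hxB : x ∈ B
    · rw [if_pos hxB]
      have e : (P.filter fun e => x ∈ e) = {s(v, x)} := by
        ext e
        rw [mem_filter, Finset.mem_singleton, hP, Finset.mem_image]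
        constructor
        · rintro ⟨⟨y, hy, rfl⟩, h⟩
          rw [Sym2.mem_iff] at h
          rcases h with h | h
          · exact absurd h hx
          · rw [h]
        · rintro rfl
          exact ⟨⟨x, hxB, rfl⟩, Sym2.mem_mk_right v x⟩
      rw [e, Finset.card_singleton]
    · rw [if_neg hxB, Finset.card_eq_zero, Finset.filter_eq_empty_iff]
      intro e he h
      rw [hP, Finset.mem_image] at he
      obtain ⟨y, hy, rfl⟩ := he
      rw [Sym2.mem_iff] at h
      rcases h with h | h
      · exact hx h
      · rw [h] at hxB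
        exact hxB hy
  · rw [hl, ← hPc]
    congr 2
    rw [Finset.filter_eq_self]
    intro e he
    rw [hP, Finset.mem_image] at he
    obtain ⟨y, hy, rfl⟩ := he
    exact Sym2.mem_mk_left v y
  · rw [hun, Finset.card_union_of_disjoint hdj, hPc]

/-- A matching spans few pairs. -/
theorem sp_step {C : Finset (Sym2 (Fin n))} {l : ℕ} {v z : Fin n} (hC : C ⊆ board n) (hs : Sp l C)
    (hv : v ∈ iso C) (hvz : v ≠ z) : Sp l (insert s(v, z) C) := by
  refine Pool.Agent.Helper72.WC.sp_insert hC hs ?_
  have h1 : ∀ i, ball C i v = {v} := by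
    intro i
    induction i with
    | zero => rfl
    | succ i ih =>
      rw [ball, ih, Finset.singleton_biUnion, Step0_nb_iso hv, Finset.union_empty]
  rw [h1, Finset.mem_singleton]
  exact fun h => hvz h.symm

end Pool.Agent.Helper40.WS
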